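import Pool.Agent.MP7da5c3.Int

set_option autoImplicit false

namespace Pool.Agent.MP7da5c3

open Set Filter Topology MeasureTheory

/-! The area formula for the map `(Re F, Im G)` and integrability of the majorant. -/

/-- the real linear map `w ↦ Re (a w) + i Im (b w)` -/
noncomputable def lin (a b : ℂ) : ℂ →L[ℝ] ℂ :=
  Complex.ofRealCLM.comp (Complex.reCLM.comp (a • (1 : ℂ →L[ℝ] ℂ))) +
    Complex.I • Complex.ofRealCLM.comp (Complex.imCLM.comp (b • (1 : ℂ →L[ℝ] ℂ)))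

theorem lin_apply (a b w : ℂ) :
    lin a b w = ((a * w).re : ℂ) + Complex.I * ((b * w).im : ℂ) := by
  simp [lin]

theorem lin_det (a b : ℂ) : (lin a b).det = a.re * b.re + a.im * b.im := by
  have h : (lin a b).det = LinearMap.det (lin a b : ℂ →ₗ[ℝ] ℂ) := rfl
  rw [h, ← LinearMap.det_toMatrix Complex.basisOneI, Matrix.det_fin_two]
  simp only [LinearMap.toMatrix_apply, ContinuousLinearMap.coe_coe, lin_apply,
    Complex.coe_basisOneI_repr, Complex.coe_basisOneI, Matrix.cons_val_zero, Matrix.cons_val_one,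
    Complex.add_re, Complex.add_im, Complex.mul_re, Complex.mul_im, Complex.ofReal_re,
    Complex.ofReal_im, Complex.I_re, Complex.I_im, Complex.one_re, Complex.one_im]
  ring

/-- the map `(Re F, Im G)` -/
noncomputable def mapf (F G : ℂ → ℂ) (ζ : ℂ) : ℂ := ((F ζ).re : ℂ) + Complex.I * ((G ζ).im : ℂ)

theorem hasFDerivAt_mapf {F G : ℂ → ℂ} {a b ζ : ℂ} (hF : HasDerivAt F a ζ)
    (hG : HasDerivAt G b ζ) : HasFDerivAt (mapf F G) (lin a b) ζ := by
  have h1 := hF.complexToReal_fderiv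
  have h2 := hG.complexToReal_fderiv
  have h3 := Complex.reCLM.hasFDerivAt.comp ζ h1
  have h4 := Complex.imCLM.hasFDerivAt.comp ζ h2
  have h5 := Complex.ofRealCLM.hasFDerivAt.comp ζ h3
  have h6 := (Complex.ofRealCLM.hasFDerivAt.comp ζ h4).const_mul Complex.I
  exact h5.add h6

theorem area_le {F G F1 G1 : ℂ → ℂ} {R : Set ℂ} (hR : MeasurableSet R)
    (hF : ∀ ζ ∈ R, HasDerivAt F (F1 ζ) ζ) (hG : ∀ ζ ∈ R, HasDerivAt G (G1 ζ) ζ)
    (hinj : InjOn (mapf F G) R) (Θ : ℂ → ENNReal) :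
    ∫⁻ ζ in R, ENNReal.ofReal |(F1 ζ).re * (G1 ζ).re + (F1 ζ).im * (G1 ζ).im| * Θ (mapf F G ζ)
      ≤ ∫⁻ w, Θ w := by
  have h := lintegral_image_eq_lintegral_abs_det_fderiv_mul volume hR
    (f' := fun ζ => lin (F1 ζ) (G1 ζ))
    (fun ζ hζ => (hasFDerivAt_mapf (hF ζ hζ) (hG ζ hζ)).hasFDerivWithinAt) hinj Θ
  simp only [lin_det] at h
  rw [← h]
  exact setLIntegral_le_lintegral _ _

/-- the majorant is integrable on the plane -/
theorem majorant_finite {k p : ℝ} (hp : 0 < p) (hp1 : p < 1) (hk : 1 < k * (1 - p)) :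
    ∫⁻ w : ℂ, ENNReal.ofReal ((1 + w.re ^ 2 + (1 + w.im ^ 2) ^ k) ^ (p / 2 - 1)) < ⊤ := by
  have hk0 : 0 < k := by
    by_contra h
    push Not at h
    nlinarith
  -- exponents
  set δ : ℝ := (1 - p - 1 / k) / 4 with hδ
  have hδ0 : 0 < δ := by
    rw [hδ]
    have : 1 / k < 1 - p := by
      rw [div_lt_iff₀ hk0]
      linarith
    linarith
  set a : ℝ := 1 / 2 + δ with ha
  set b : ℝ := 1 / (2 * k) + δ with hb
  have hab : a + b = 1 - p / 2 := by
    rw [ha, hb, hδ]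
    field_simp
    ring
  have ha0 : 0 < a := by rw [ha]; linarith
  have hb0 : 0 < b := by rw [hb]; positivity
  have hpt : ∀ w : ℂ, (1 + w.re ^ 2 + (1 + w.im ^ 2) ^ k) ^ (p / 2 - 1) ≤
      (1 + ‖w.re‖ ^ 2) ^ (-(2 * a) / 2) * (1 + ‖w.im‖ ^ 2) ^ (-(2 * k * b) / 2) := by
    intro w
    rw [Real.norm_eq_abs, Real.norm_eq_abs, sq_abs, sq_abs]
    have h1 : 0 < 1 + w.re ^ 2 := by positivity
    have h2 : 0 < (1 + w.im ^ 2) ^ k := by positivity
    have h3 : p / 2 - 1 = -a + -b := by linarith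
    have hsum : 0 < 1 + w.re ^ 2 + (1 + w.im ^ 2) ^ k := by positivity
    rw [h3, Real.rpow_add hsum]
    have e1 : -(2 * a) / 2 = -a := by ring
    have e2 : -(2 * k * b) / 2 = k * -b := by ring
    rw [e1, e2, Real.rpow_mul (by positivity)]
    apply mul_le_mul
    · apply Real.rpow_le_rpow_of_nonpos h1 (by linarith) (by linarith)
    · apply Real.rpow_le_rpow_of_nonpos h2 (by linarith) (by linarith)
    · positivity
    · positivity
  have hfin1 : Integrable (fun x : ℝ => (1 + ‖x‖ ^ 2) ^ (-(2 * a) / 2)) := by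
    apply integrable_rpow_neg_one_add_norm_sq
    rw [Module.finrank_self]
    push_cast
    rw [ha]
    linarith
  have hfin2 : Integrable (fun x : ℝ => (1 + ‖x‖ ^ 2) ^ (-(2 * k * b) / 2)) := by
    apply integrable_rpow_neg_one_add_norm_sq
    rw [Module.finrank_self]
    push_cast
    have : 2 * k * b = 1 + 2 * k * δ := by
      rw [hb]
      field_simp
    rw [this]
    nlinarith
  refine lt_of_le_of_lt (lintegral_mono fun w => ENNReal.ofReal_le_ofReal (hpt w)) ?_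
  have e := Complex.volume_preserving_equiv_real_prod
  have h3 := e.lintegral_comp_emb Complex.measurableEquivRealProd.measurableEmbedding
    (fun q : ℝ × ℝ => ENNReal.ofReal ((1 + ‖q.1‖ ^ 2) ^ (-(2 * a) / 2)
      * (1 + ‖q.2‖ ^ 2) ^ (-(2 * k * b) / 2)))
  simp only [Complex.measurableEquivRealProd_apply] at h3
  rw [h3]
  have h4 : ∀ q : ℝ × ℝ, ENNReal.ofReal ((1 + ‖q.1‖ ^ 2) ^ (-(2 * a) / 2)
      * (1 + ‖q.2‖ ^ 2) ^ (-(2 * k * b) / 2))
      = ENNReal.ofReal ((1 + ‖q.1‖ ^ 2) ^ (-(2 * a) / 2))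
        * ENNReal.ofReal ((1 + ‖q.2‖ ^ 2) ^ (-(2 * k * b) / 2)) := by
    intro q
    exact ENNReal.ofReal_mul (by positivity)
  simp only [h4]
  rw [Measure.volume_eq_prod, lintegral_prod_mul hfin1.aestronglyMeasurable.aemeasurable.ennreal_ofReal
    hfin2.aestronglyMeasurable.aemeasurable.ennreal_ofReal]
  apply ENNReal.mul_lt_top
  · rw [← ofReal_integral_eq_lintegral_ofReal hfin1 (Eventually.of_forall fun x => by positivity)]
    exact ENNReal.ofReal_lt_top
  · rw [← ofReal_integral_eq_lintegral_ofReal hfin2 (Eventually.of_forall fun x => by positivity)]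
    exact ENNReal.ofReal_lt_top

end Pool.Agent.MP7da5c3
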