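import Mathlib

set_option autoImplicit false

namespace Pool.Agent.MP7da5c3

open MeasureTheory Set Filter Topology

/-! Calculus on the left half plane: second derivatives along lines, and circular means in the
logarithmic coordinate. -/

/-- the left half plane -/
def LH : Set ℂ := {ζ | ζ.re < 0}

theorem isOpen_LH : IsOpen LH := isOpen_lt Complex.continuous_re continuous_const

/-- `P1 c` and `P2 c` are the first two derivatives of `P` in the direction `c`, on `LH` -/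
structure D2 (P : ℂ → ℝ) (P1 P2 : ℂ → ℂ → ℝ) : Prop where
  d1 : ∀ c : ℂ, ∀ ζ ∈ LH, HasDerivAt (fun t : ℝ => P (ζ + t * c)) (P1 c ζ) 0
  d2 : ∀ c : ℂ, ∀ ζ ∈ LH, HasDerivAt (fun t : ℝ => P1 c (ζ + t * c)) (P2 c ζ) 0
  c0 : ContinuousOn P LH
  c1 : ∀ c, ContinuousOn (P1 c) LH
  c2 : ∀ c, ContinuousOn (P2 c) LH

theorem D2.comp {P : ℂ → ℝ} {P1 P2 : ℂ → ℂ → ℝ} (h : D2 P P1 P2) {φ φ1 φ2 : ℝ → ℝ} {S : Set ℝ}
    (hS : ∀ ζ ∈ LH, P ζ ∈ S) (h1 : ∀ x ∈ S, HasDerivAt φ (φ1 x) x)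
    (h2 : ∀ x ∈ S, HasDerivAt φ1 (φ2 x) x) (h3 : ContinuousOn φ2 S) :
    D2 (fun ζ => φ (P ζ)) (fun c ζ => φ1 (P ζ) * P1 c ζ)
      (fun c ζ => φ2 (P ζ) * P1 c ζ ^ 2 + φ1 (P ζ) * P2 c ζ) := by
  have hφ1 : ContinuousOn φ1 S := fun x hx => (h2 x hx).continuousAt.continuousWithinAt
  have hφ : ContinuousOn φ S := fun x hx => (h1 x hx).continuousAt.continuousWithinAt
  have e1 : ∀ c : ℂ, ∀ ζ ∈ LH, ∀ (ψ ψ' : ℝ → ℝ), (∀ x ∈ S, HasDerivAt ψ (ψ' x) x) →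
      HasDerivAt (fun t : ℝ => ψ (P (ζ + t * c))) (ψ' (P ζ) * P1 c ζ) 0 := by
    intro c ζ hζ ψ ψ' hψ
    have h4 := h.d1 c ζ hζ
    have h5 : HasDerivAt ψ (ψ' (P ζ)) (P (ζ + ((0 : ℝ) : ℂ) * c)) := by
      have h6 : ζ + ((0 : ℝ) : ℂ) * c = ζ := by simp
      rw [h6]
      exact hψ _ (hS ζ hζ)
    exact h5.comp (0 : ℝ) h4
  refine ⟨fun c ζ hζ => e1 c ζ hζ φ φ1 h1, fun c ζ hζ => ?_, hφ.comp h.c0 hS,
    fun c => (hφ1.comp h.c0 hS).mul (h.c1 c), fun c => ?_⟩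
  · have h4 := (e1 c ζ hζ φ1 φ2 h2).mul (h.d2 c ζ hζ)
    have h6 : ζ + ((0 : ℝ) : ℂ) * c = ζ := by simp
    rw [h6] at h4
    refine h4.congr_deriv ?_
    ring
  · exact ((h3.comp h.c0 hS).mul ((h.c1 c).pow 2)).add ((hφ1.comp h.c0 hS).mul (h.c2 c))

theorem D2.add {P Q : ℂ → ℝ} {P1 P2 Q1 Q2 : ℂ → ℂ → ℝ} (h : D2 P P1 P2) (h' : D2 Q Q1 Q2) :
    D2 (fun ζ => P ζ + Q ζ) (fun c ζ => P1 c ζ + Q1 c ζ) (fun c ζ => P2 c ζ + Q2 c ζ) :=
  ⟨fun c ζ hζ => (h.d1 c ζ hζ).add (h'.d1 c ζ hζ), fun c ζ hζ => (h.d2 c ζ hζ).add (h'.d2 c ζ hζ),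
    h.c0.add h'.c0, fun c => (h.c1 c).add (h'.c1 c), fun c => (h.c2 c).add (h'.c2 c)⟩

theorem D2.const_add {P : ℂ → ℝ} {P1 P2 : ℂ → ℂ → ℝ} (h : D2 P P1 P2) (a : ℝ) :
    D2 (fun ζ => a + P ζ) P1 P2 :=
  ⟨fun c ζ hζ => (h.d1 c ζ hζ).const_add a, h.d2, continuousOn_const.add h.c0, h.c1, h.c2⟩

/-- the squared modulus of an analytic function -/
theorem D2.normSq {F F1 F2 : ℂ → ℂ} (h1 : ∀ ζ ∈ LH, HasDerivAt F (F1 ζ) ζ)
    (h2 : ∀ ζ ∈ LH, HasDerivAt F1 (F2 ζ) ζ) (h3 : ContinuousOn F2 LH) :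
    D2 (fun ζ => ‖F ζ‖ ^ 2) (fun c ζ => 2 * inner ℝ (F ζ) (F1 ζ * c))
      (fun c ζ => 2 * (inner ℝ (F ζ) (F2 ζ * c * c) + ‖F1 ζ * c‖ ^ 2)) := by
  have hc : ∀ c ζ : ℂ, HasDerivAt (fun t : ℝ => ζ + t * c) c 0 := by
    intro c ζ
    have h4 : HasDerivAt (fun t : ℝ => (t : ℂ)) 1 0 := Complex.ofRealCLM.hasDerivAt
    have h5 := (h4.mul_const c).const_add ζ
    rw [one_mul] at h5
    exact h5
  have hz : ∀ c ζ : ℂ, ζ + ((0 : ℝ) : ℂ) * c = ζ := by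
    intro c ζ
    simp
  have e1 : ∀ (H H1 : ℂ → ℂ), (∀ ζ ∈ LH, HasDerivAt H (H1 ζ) ζ) → ∀ c : ℂ, ∀ ζ ∈ LH,
      HasDerivAt (fun t : ℝ => H (ζ + t * c)) (H1 ζ * c) 0 := by
    intro H H1 hH c ζ hζ
    have h4 : HasDerivAt H (H1 ζ) (ζ + ((0 : ℝ) : ℂ) * c) := by
      rw [hz]
      exact hH ζ hζ
    exact h4.comp (0 : ℝ) (hc c ζ)
  have hF : ContinuousOn F LH := fun x hx => (h1 x hx).continuousAt.continuousWithinAt
  have hF1 : ContinuousOn F1 LH := fun x hx => (h2 x hx).continuousAt.continuousWithinAt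
  refine ⟨fun c ζ hζ => ?_, fun c ζ hζ => ?_, hF.norm.pow 2, fun c => ?_, fun c => ?_⟩
  · have h4 := (e1 F F1 h1 c ζ hζ).norm_sq
    rw [hz] at h4
    exact h4
  · have h4 := (e1 F F1 h1 c ζ hζ).inner ℝ ((e1 F1 F2 h2 c ζ hζ).mul_const c)
    rw [hz] at h4
    have h5 := h4.const_mul 2
    rw [real_inner_self_eq_norm_sq] at h5
    exact h5
  · exact (hF.inner (hF1.mul continuousOn_const)).const_smul (2 : ℝ)
  · refine (ContinuousOn.add ?_ ?_).const_smul (2 : ℝ)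
    · exact hF.inner ((h3.mul continuousOn_const).mul continuousOn_const)
    · exact (hF1.mul continuousOn_const).norm.pow 2

/-- the circular mean in logarithmic coordinates -/
noncomputable def mean (P : ℂ → ℝ) (x : ℝ) : ℝ :=
  ∫ θ in (0 : ℝ)..(2 * Real.pi), P (x + θ * Complex.I)

theorem mem_LH {x θ : ℝ} (hx : x < 0) : (x : ℂ) + θ * Complex.I ∈ LH := by
  simpa [LH] using hx

theorem continuous_line (x : ℝ) : Continuous (fun θ : ℝ => (x : ℂ) + θ * Complex.I) := by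
  fun_prop

theorem continuous_slice {P : ℂ → ℝ} (hP : ContinuousOn P LH) {x : ℝ} (hx : x < 0) :
    Continuous (fun θ : ℝ => P (x + θ * Complex.I)) :=
  hP.comp_continuous (continuous_line x) (fun _ => mem_LH hx)

theorem hasDerivAt_mean {P Q : ℂ → ℝ} (hP : ContinuousOn P LH) (hQ : ContinuousOn Q LH)
    (h : ∀ ζ ∈ LH, HasDerivAt (fun t : ℝ => P (ζ + t * 1)) (Q ζ) 0) {x : ℝ} (hx : x < 0) :
    HasDerivAt (mean P) (mean Q x) x := by
  have hdiff : ∀ y : ℝ, y < 0 → ∀ θ : ℝ,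
      HasDerivAt (fun y : ℝ => P (y + θ * Complex.I)) (Q (y + θ * Complex.I)) y := by
    intro y hy θ
    have h1 := h _ (mem_LH (θ := θ) hy)
    have h3 : HasDerivAt (fun t : ℝ => P (y + θ * Complex.I + t * 1)) (Q (y + θ * Complex.I))
        (y - y) := by
      rw [sub_self]
      exact h1
    have h4 := HasDerivAt.comp_sub_const y y h3
    refine h4.congr_of_eventuallyEq (Eventually.of_forall fun z => ?_)
    show P (z + θ * Complex.I) = P (y + θ * Complex.I + ((z - y : ℝ) : ℂ) * 1)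
    congr 1
    push_cast
    ring
  -- compact neighbourhood
  set δ : ℝ := -x / 2 with hδ
  have hδ0 : 0 < δ := by rw [hδ]; linarith
  let K : Set ℂ := (fun p : ℝ × ℝ => (p.1 : ℂ) + p.2 * Complex.I) ''
    (Icc (x - δ) (x + δ) ×ˢ uIcc 0 (2 * Real.pi))
  have hK : IsCompact K := by
    apply (isCompact_Icc.prod isCompact_uIcc).image
    fun_prop
  have hKL : K ⊆ LH := by
    rintro _ ⟨⟨a, b⟩, ⟨ha, _⟩, rfl⟩
    apply mem_LH
    have h1 : a ≤ x + δ := ha.2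
    linarith
  obtain ⟨C, hC⟩ := hK.exists_bound_of_continuousOn (hQ.mono hKL)
  have hs : Icc (x - δ) (x + δ) ∈ 𝓝 x := Icc_mem_nhds (by linarith) (by linarith)
  have key := intervalIntegral.hasDerivAt_integral_of_dominated_loc_of_deriv_le
    (μ := volume) (a := 0) (b := 2 * Real.pi) (bound := fun _ => C)
    (F := fun (y : ℝ) (θ : ℝ) => P (y + θ * Complex.I))
    (F' := fun (y : ℝ) (θ : ℝ) => Q (y + θ * Complex.I)) (x₀ := x) hs
    (by
      filter_upwards [gt_mem_nhds hx] with y hy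
      exact (continuous_slice hP hy).aestronglyMeasurable)
    ((continuous_slice hP hx).intervalIntegrable _ _)
    ((continuous_slice hQ hx).aestronglyMeasurable)
    (Eventually.of_forall fun θ hθ y hy => hC _ ⟨(y, θ), ⟨hy, uIoc_subset_uIcc hθ⟩, rfl⟩)
    intervalIntegrable_const
    (Eventually.of_forall fun θ _ y hy => hdiff y (by have := hy.2; linarith) θ)
  exact key.2

/-- integrating the vertical second derivative of a periodic function -/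
theorem mean_vertical {P1 P2 : ℂ → ℝ} (hQ : ContinuousOn P2 LH)
    (h : ∀ ζ ∈ LH, HasDerivAt (fun t : ℝ => P1 (ζ + t * Complex.I)) (P2 ζ) 0)
    (hper : ∀ ζ ∈ LH, P1 (ζ + 2 * Real.pi * Complex.I) = P1 ζ) {x : ℝ} (hx : x < 0) :
    mean P2 x = 0 := by
  have hdiff : ∀ θ : ℝ, HasDerivAt (fun θ : ℝ => P1 (x + θ * Complex.I))
      (P2 (x + θ * Complex.I)) θ := by
    intro θ
    have h1 := h _ (mem_LH (θ := θ) hx)
    have h3 : HasDerivAt (fun t : ℝ => P1 (x + θ * Complex.I + t * Complex.I))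
        (P2 (x + θ * Complex.I)) (θ - θ) := by
      rw [sub_self]
      exact h1
    have h4 := HasDerivAt.comp_sub_const θ θ h3
    refine h4.congr_of_eventuallyEq (Eventually.of_forall fun z => ?_)
    show P1 (x + z * Complex.I) = P1 (x + θ * Complex.I + ((z - θ : ℝ) : ℂ) * Complex.I)
    congr 1
    push_cast
    ring
  unfold mean
  rw [intervalIntegral.integral_eq_sub_of_hasDerivAt (fun θ _ => hdiff θ)
    ((continuous_slice hQ hx).intervalIntegrable _ _)]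
  have h1 := hper _ (mem_LH (θ := 0) hx)
  have h2 : (x : ℂ) + ((2 * Real.pi : ℝ) : ℂ) * Complex.I
      = (x : ℂ) + ((0 : ℝ) : ℂ) * Complex.I + 2 * Real.pi * Complex.I := by
    push_cast
    ring
  rw [h2, h1, sub_self]

/-- the second derivative of the mean is the mean of the Laplacian -/
theorem D2.mean {P : ℂ → ℝ} {P1 P2 : ℂ → ℂ → ℝ} (h : D2 P P1 P2)
    (hper : ∀ ζ ∈ LH, P1 Complex.I (ζ + 2 * Real.pi * Complex.I) = P1 Complex.I ζ)
    {x : ℝ} (hx : x < 0) :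
    HasDerivAt (mean P) (mean (P1 1) x) x ∧
    HasDerivAt (mean (P1 1)) (mean (fun ζ => P2 1 ζ + P2 Complex.I ζ) x) x := by
  refine ⟨hasDerivAt_mean h.c0 (h.c1 1) (h.d1 1) hx, ?_⟩
  have h1 := hasDerivAt_mean (h.c1 1) (h.c2 1) (h.d2 1) hx
  have h2 := mean_vertical (h.c2 Complex.I) (h.d2 Complex.I) hper hx
  have h3 : Pool.Agent.MP7da5c3.mean (fun ζ => P2 1 ζ + P2 Complex.I ζ) x
      = Pool.Agent.MP7da5c3.mean (P2 1) x + Pool.Agent.MP7da5c3.mean (P2 Complex.I) x :=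
    intervalIntegral.integral_add ((continuous_slice (h.c2 1) hx).intervalIntegrable _ _)
      ((continuous_slice (h.c2 Complex.I) hx).intervalIntegrable _ _)
  rw [h3, h2, add_zero]
  exact h1

end Pool.Agent.MP7da5c3
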