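import Pool.Agent.MP7da5c3.Transfer

set_option autoImplicit false

namespace Pool.Agent.MP7da5c3

open Set Filter Topology MeasureTheory Metric

/-! Half planes and strips. -/

/-- mean value property for the real part -/
theorem mean_re {E : ℂ → ℂ} (hE : DifferentiableOn ℂ E (ball 0 1)) {r : ℝ} (hr : 0 ≤ r)
    (hr1 : r < 1) :
    ∫ θ in (0 : ℝ)..(2 * Real.pi), (E ((r : ℂ) * Complex.exp ((θ : ℂ) * Complex.I))).re
      = 2 * Real.pi * (E 0).re := by
  have hc : ContinuousOn E (ball 0 1) := hE.continuousOn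
  have hsub : closedBall (0 : ℂ) |r| ⊆ ball 0 1 := by
    rw [abs_of_nonneg hr]
    exact closedBall_subset_ball hr1
  have h1 : Real.circleAverage E 0 r = E 0 := by
    apply circleAverage_of_differentiable_on_off_countable (s := ∅) countable_empty
    · exact hc.mono hsub
    · intro z hz
      have h2 : z ∈ ball (0 : ℂ) 1 := hsub (ball_subset_closedBall hz.1)
      exact hE.differentiableAt (isOpen_ball.mem_nhds h2)
  rw [Real.circleAverage_def] at h1
  have h3 : ∫ θ in (0 : ℝ)..(2 * Real.pi), E (circleMap 0 r θ) = 2 * Real.pi * E 0 := by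
    rw [← h1, Complex.real_smul]
    push_cast
    have hpi : (Real.pi : ℂ) ≠ 0 := by exact_mod_cast Real.pi_ne_zero
    field_simp
  have h4 := congrArg Complex.re h3
  have h5 : ∀ θ : ℝ, circleMap 0 r θ = (r : ℂ) * Complex.exp ((θ : ℂ) * Complex.I) := by
    intro θ
    simp [circleMap]
  simp only [h5] at h4
  have hcont : Continuous (fun θ : ℝ => E ((r : ℂ) * Complex.exp ((θ : ℂ) * Complex.I))) :=
    hc.comp_continuous (by fun_prop) (fun θ => circle_mem hr hr1 θ)
  have h6 := Complex.reCLM.intervalIntegral_comp_comm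
    (hcont.intervalIntegrable (μ := volume) (0 : ℝ) (2 * Real.pi))
  have h7 : ∫ θ in (0 : ℝ)..(2 * Real.pi), (E ((r : ℂ) * Complex.exp ((θ : ℂ) * Complex.I))).re
      = (∫ θ in (0 : ℝ)..(2 * Real.pi), E ((r : ℂ) * Complex.exp ((θ : ℂ) * Complex.I))).re := h6
  rw [h7, h4]
  simp [Complex.mul_re]

theorem re_cpow {w : ℂ} (hw : 0 < w.re) (q : ℝ) :
    (w ^ (q : ℂ)).re = ‖w‖ ^ q * Real.cos (w.arg * q) := by
  have hw0 : w ≠ 0 := by
    intro h
    rw [h] at hw
    simp at hw
  rw [Complex.cpow_def_of_ne_zero hw0, Complex.exp_re]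
  have h1 : (Complex.log w * (q : ℂ)).re = Real.log ‖w‖ * q := by
    simp [Complex.mul_re, Complex.log_re]
  have h2 : (Complex.log w * (q : ℂ)).im = w.arg * q := by
    simp [Complex.mul_im, Complex.log_im]
  rw [h1, h2, Real.rpow_def_of_pos (norm_pos_iff.mpr hw0)]

/-- Kolmogorov's theorem for functions with real part bounded below -/
theorem kolmogorov {G : ℂ → ℂ} (hG : DifferentiableOn ℂ G (ball 0 1)) {a : ℝ}
    (ha : ∀ z ∈ ball (0 : ℂ) 1, a < (G z).re) {q : ℝ} (hq : 0 < q) (hq1 : q < 1) :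
    MemH q G := by
  set P : ℂ → ℂ := fun z => G z - (a : ℂ) with hP
  have hPd : DifferentiableOn ℂ P (ball 0 1) := hG.sub_const _
  have hPre : ∀ z ∈ ball (0 : ℂ) 1, 0 < (P z).re := by
    intro z hz
    have := ha z hz
    simp only [hP, Complex.sub_re, Complex.ofReal_re]
    linarith
  set E : ℂ → ℂ := fun z => P z ^ (q : ℂ) with hE
  have hEd : DifferentiableOn ℂ E (ball 0 1) := by
    apply DifferentiableOn.cpow hPd (differentiableOn_const _)
    intro z hz
    exact Or.inl (hPre z hz)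
  set c : ℝ := Real.cos (Real.pi / 2 * q) with hc
  have hpi := Real.pi_pos
  have hc0 : 0 < c := by
    apply Real.cos_pos_of_mem_Ioo
    constructor <;> nlinarith
  have hlow : ∀ z ∈ ball (0 : ℂ) 1, ‖P z‖ ^ q ≤ c⁻¹ * (E z).re := by
    intro z hz
    have h0 := hPre z hz
    rw [hE]
    simp only
    rw [re_cpow h0]
    have h1 : |(P z).arg| < Real.pi / 2 := Complex.abs_arg_lt_pi_div_two_iff.mpr (Or.inl h0)
    have h2 : c ≤ Real.cos ((P z).arg * q) := by
      rw [hc, ← Real.cos_abs ((P z).arg * q), abs_mul, abs_of_pos hq]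
      apply Real.cos_le_cos_of_nonneg_of_le_pi
      · positivity
      · nlinarith
      · exact mul_le_mul_of_nonneg_right h1.le hq.le
    have h3 : 0 ≤ ‖P z‖ ^ q := by positivity
    rw [← div_eq_inv_mul, le_div_iff₀ hc0]
    exact mul_le_mul_of_nonneg_left h2 h3
  refine ⟨|a| ^ q * (2 * Real.pi) + c⁻¹ * (2 * Real.pi * (E 0).re), fun r hr hr1 => ?_⟩
  have cG : ContinuousOn (fun z => ‖G z‖ ^ q) (ball 0 1) :=
    hG.continuousOn.norm.rpow_const fun z _ => Or.inr hq.le
  have cE : ContinuousOn (fun z => (E z).re) (ball 0 1) :=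
    Complex.continuous_re.comp_continuousOn hEd.continuousOn
  have cR : ContinuousOn (fun z => |a| ^ q + c⁻¹ * (E z).re) (ball 0 1) :=
    continuousOn_const.add (continuousOn_const.mul cE)
  have hpt : ∀ z ∈ ball (0 : ℂ) 1, ‖G z‖ ^ q ≤ |a| ^ q + c⁻¹ * (E z).re := by
    intro z hz
    have h1 : ‖G z‖ ≤ |a| + ‖P z‖ := by
      have h2 : G z = (a : ℂ) + P z := by simp [hP]
      have h3 := norm_add_le (a : ℂ) (P z)
      rw [← h2, Complex.norm_real, Real.norm_eq_abs] at h3
      exact h3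
    calc ‖G z‖ ^ q ≤ (|a| + ‖P z‖) ^ q := Real.rpow_le_rpow (norm_nonneg _) h1 hq.le
      _ ≤ |a| ^ q + ‖P z‖ ^ q :=
          Real.rpow_add_le_add_rpow (abs_nonneg _) (norm_nonneg _) hq.le hq1.le
      _ ≤ _ := by linarith [hlow z hz]
  refine (means_mono cG cR hpt hr hr1).trans (le_of_eq ?_)
  rw [intervalIntegral.integral_add intervalIntegrable_const
    (((continuous_circle cE hr hr1).intervalIntegrable _ _).const_mul _),
    intervalIntegral.integral_const_mul, mean_re hEd hr hr1, intervalIntegral.integral_const,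
    smul_eq_mul, sub_zero]
  ring

/-- analytic functions whose real part is bounded lie in every Hardy space -/
theorem strip_memH {G : ℂ → ℂ} (hG : DifferentiableOn ℂ G (ball 0 1)) {a b : ℝ}
    (ha : ∀ z ∈ ball (0 : ℂ) 1, a < (G z).re ∧ (G z).re < b) {q : ℝ} (hq : 0 < q) :
    MemH q G := by
  have hab : a < b := (ha 0 (by simp)).1.trans (ha 0 (by simp)).2
  have hpi := Real.pi_pos
  set m : ℝ := (a + b) / 2 with hm
  set κ : ℝ := 2 * Real.pi / (3 * (b - a)) with hκ
  have hκ0 : 0 < κ := by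
    rw [hκ]
    have : 0 < b - a := by linarith
    positivity
  -- the two exponentials
  have hE : ∀ s : ℝ, s = 1 ∨ s = -1 → ∀ r : ℝ, 0 ≤ r → r < 1 →
      ∫ θ in (0 : ℝ)..(2 * Real.pi),
        Real.exp (s * κ * (G ((r : ℂ) * Complex.exp ((θ : ℂ) * Complex.I))).im) ≤
        2 * (2 * Real.pi * (Complex.exp (-(s * κ : ℝ) * Complex.I * (G 0 - m))).re) := by
    intro s hs r hr hr1
    set E : ℂ → ℂ := fun z => Complex.exp (-(s * κ : ℝ) * Complex.I * (G z - m)) with hEdef
    have hEd : DifferentiableOn ℂ E (ball 0 1) := ((hG.sub_const _).const_mul _).cexp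
    have hs1 : |s| = 1 := by
      rcases hs with h | h <;> rw [h] <;> norm_num
    have hpt : ∀ z ∈ ball (0 : ℂ) 1, Real.exp (s * κ * (G z).im) ≤ 2 * (E z).re := by
      intro z hz
      rw [hEdef]
      simp only
      rw [Complex.exp_re]
      have e1 : (-(s * κ : ℝ) * Complex.I * (G z - m)).re = s * κ * (G z).im := by
        simp only [Complex.mul_re, Complex.neg_re, Complex.neg_im, Complex.ofReal_re,
          Complex.ofReal_im, Complex.I_re, Complex.I_im, Complex.mul_im, Complex.sub_re,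
          Complex.sub_im]
        ring
      have e2 : (-(s * κ : ℝ) * Complex.I * (G z - m)).im = -(s * (κ * ((G z).re - m))) := by
        simp only [Complex.mul_re, Complex.neg_re, Complex.neg_im, Complex.ofReal_re,
          Complex.ofReal_im, Complex.I_re, Complex.I_im, Complex.mul_im, Complex.sub_re,
          Complex.sub_im]
        ring
      rw [e1, e2]
      have h1 := ha z hz
      have h2 : |(G z).re - m| ≤ (b - a) / 2 := by
        rw [abs_le, hm]
        constructor <;> linarith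
      have h3 : κ * |(G z).re - m| ≤ Real.pi / 3 := by
        calc κ * |(G z).re - m| ≤ κ * ((b - a) / 2) := mul_le_mul_of_nonneg_left h2 hκ0.le
          _ = Real.pi / 3 := by
              have : b - a ≠ 0 := by linarith
              rw [hκ]
              field_simp
      have h4 : 1 / 2 ≤ Real.cos (-(s * (κ * ((G z).re - m)))) := by
        rw [← Real.cos_pi_div_three, ← Real.cos_abs (-(s * (κ * ((G z).re - m)))), abs_neg,
          abs_mul, hs1, one_mul, abs_mul, abs_of_pos hκ0]
        apply Real.cos_le_cos_of_nonneg_of_le_pi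
        · positivity
        · linarith
        · exact h3
      have h5 := Real.exp_pos (s * κ * (G z).im)
      nlinarith
    have cE : ContinuousOn (fun z => (E z).re) (ball 0 1) :=
      Complex.continuous_re.comp_continuousOn hEd.continuousOn
    have cI : ContinuousOn (fun z => Real.exp (s * κ * (G z).im)) (ball 0 1) := by
      apply Real.continuous_exp.comp_continuousOn
      exact continuousOn_const.mul (Complex.continuous_im.comp_continuousOn hG.continuousOn)
    have cE2 : ContinuousOn (fun z => 2 * (E z).re) (ball 0 1) := continuousOn_const.mul cE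
    refine (means_mono cI cE2 hpt hr hr1).trans (le_of_eq ?_)
    rw [intervalIntegral.integral_const_mul, mean_re hEd hr hr1]
  obtain ⟨n, hn⟩ := exists_nat_ge q
  set B : ℝ := 1 + |a| + |b| with hB
  set D : ℝ := (n.factorial : ℝ) / κ ^ n * Real.exp (κ * B) with hD
  have hD0 : 0 < D := by positivity
  have hpt : ∀ z ∈ ball (0 : ℂ) 1, ‖G z‖ ^ q ≤
      D * (Real.exp (1 * κ * (G z).im) + Real.exp (-1 * κ * (G z).im)) := by
    intro z hz
    have h1 := ha z hz
    have h2 : |(G z).re| ≤ |a| + |b| := by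
      rw [abs_le]
      have h3 := neg_abs_le a
      have h4 := le_abs_self b
      have h5 := abs_nonneg a
      have h6 := abs_nonneg b
      constructor <;> linarith
    have h3 : ‖G z‖ ≤ B + |(G z).im| := by
      have := Complex.norm_le_abs_re_add_abs_im (G z)
      rw [hB]
      linarith
    have hB1 : 1 ≤ B + |(G z).im| := by
      rw [hB]
      have h5 := abs_nonneg a
      have h6 := abs_nonneg b
      have h7 := abs_nonneg (G z).im
      linarith
    have h4 : ‖G z‖ ^ q ≤ (B + |(G z).im|) ^ n := by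
      calc ‖G z‖ ^ q ≤ (B + |(G z).im|) ^ q := Real.rpow_le_rpow (norm_nonneg _) h3 hq.le
        _ ≤ (B + |(G z).im|) ^ (n : ℝ) := Real.rpow_le_rpow_of_exponent_le hB1 hn
        _ = _ := Real.rpow_natCast _ _
    have h5 := Real.pow_div_factorial_le_exp (x := κ * (B + |(G z).im|)) (by positivity) n
    have hfac : (0 : ℝ) < n.factorial := by exact_mod_cast n.factorial_pos
    have h6 : (B + |(G z).im|) ^ n ≤ (n.factorial : ℝ) / κ ^ n *
        Real.exp (κ * (B + |(G z).im|)) := by
      rw [mul_pow, div_le_iff₀ hfac] at h5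
      rw [div_mul_eq_mul_div, le_div_iff₀ (by positivity)]
      linarith
    have h7 : Real.exp (κ * (B + |(G z).im|)) ≤ Real.exp (κ * B) *
        (Real.exp (1 * κ * (G z).im) + Real.exp (-1 * κ * (G z).im)) := by
      rw [mul_add κ, Real.exp_add]
      apply mul_le_mul_of_nonneg_left _ (Real.exp_pos _).le
      rcases abs_cases (G z).im with ⟨h8, _⟩ | ⟨h8, _⟩
      · rw [h8]
        have := Real.exp_pos (-1 * κ * (G z).im)
        rw [one_mul]
        linarith
      · rw [h8]
        have := Real.exp_pos (1 * κ * (G z).im)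
        have h9 : κ * -(G z).im = -1 * κ * (G z).im := by ring
        rw [h9]
        linarith
    calc ‖G z‖ ^ q ≤ (n.factorial : ℝ) / κ ^ n * Real.exp (κ * (B + |(G z).im|)) := h4.trans h6
      _ ≤ (n.factorial : ℝ) / κ ^ n * (Real.exp (κ * B) *
        (Real.exp (1 * κ * (G z).im) + Real.exp (-1 * κ * (G z).im))) :=
          mul_le_mul_of_nonneg_left h7 (by positivity)
      _ = _ := by rw [hD]; ring
  have cG : ContinuousOn (fun z => ‖G z‖ ^ q) (ball 0 1) :=
    hG.continuousOn.norm.rpow_const fun z _ => Or.inr hq.le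
  have cI : ∀ s : ℝ, ContinuousOn (fun z => Real.exp (s * κ * (G z).im)) (ball 0 1) := by
    intro s
    apply Real.continuous_exp.comp_continuousOn
    exact continuousOn_const.mul (Complex.continuous_im.comp_continuousOn hG.continuousOn)
  refine ⟨D * (2 * (2 * Real.pi * (Complex.exp (-((1 : ℝ) * κ : ℝ) * Complex.I * (G 0 - m))).re) +
    2 * (2 * Real.pi * (Complex.exp (-((-1 : ℝ) * κ : ℝ) * Complex.I * (G 0 - m))).re)),
    fun r hr hr1 => ?_⟩
  have cI2 : ContinuousOn (fun z => D * (Real.exp (1 * κ * (G z).im) +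
      Real.exp (-1 * κ * (G z).im))) (ball 0 1) :=
    continuousOn_const.mul ((cI 1).add (cI (-1)))
  refine (means_mono cG cI2 hpt hr hr1).trans ?_
  rw [intervalIntegral.integral_const_mul, intervalIntegral.integral_add
    ((continuous_circle (cI 1) hr hr1).intervalIntegrable _ _)
    ((continuous_circle (cI (-1)) hr hr1).intervalIntegrable _ _)]
  apply mul_le_mul_of_nonneg_left _ hD0.le
  exact add_le_add (hE 1 (Or.inl rfl) r hr hr1) (hE (-1) (Or.inr rfl) r hr hr1)

theorem memH_const_mul {q : ℝ} (hq : 0 < q) {c : ℂ} (hc : c ≠ 0) {G : ℂ → ℂ}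
    (hG : MemH q (fun z => c * G z)) : MemH q G := by
  obtain ⟨M, hM⟩ := hG
  refine ⟨‖c‖⁻¹ ^ q * M, fun r hr hr1 => ?_⟩
  have h1 := hM r hr hr1
  have hcn : 0 < ‖c‖ := norm_pos_iff.mpr hc
  have h2 : ∀ z : ℂ, ‖G z‖ ^ q = ‖c‖⁻¹ ^ q * ‖c * G z‖ ^ q := by
    intro z
    rw [← Real.mul_rpow (by positivity) (norm_nonneg _), norm_mul, ← mul_assoc,
      inv_mul_cancel₀ hcn.ne', one_mul]
  simp only [h2]
  rw [intervalIntegral.integral_const_mul]
  exact mul_le_mul_of_nonneg_left h1 (by positivity)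

theorem exists_eta {ν : ℂ} (hν : ν ≠ 0) : ∃ η : ℂ, ‖η‖ = 1 ∧ ∀ x y : ℂ,
    ν * (x + η * y) = ν * x + (starRingEnd ℂ) ν * y ∧
    (ν * (x + η * y)).re = (ν * (x + (starRingEnd ℂ) y)).re := by
  refine ⟨(starRingEnd ℂ) ν / ν, ?_, fun x y => ?_⟩
  · rw [norm_div, RCLike.norm_conj, div_self (norm_ne_zero_iff.mpr hν)]
  · have h1 : ν * (x + (starRingEnd ℂ) ν / ν * y) = ν * x + (starRingEnd ℂ) ν * y := by
      field_simp
    refine ⟨h1, ?_⟩
    rw [h1]
    simp only [Complex.add_re, Complex.mul_re, Complex.conj_re, Complex.conj_im, Complex.add_im]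
    ring

theorem half_plane {h g : ℂ → ℂ} (hh : DifferentiableOn ℂ h (ball 0 1))
    (hg : DifferentiableOn ℂ g (ball 0 1))
    (hinj : InjOn (fun z => h z + (starRingEnd ℂ) (g z)) (ball 0 1))
    (hJ : ∀ z ∈ ball (0 : ℂ) 1, ‖deriv g z‖ < ‖deriv h z‖)
    {ν : ℂ} (hν : ν ≠ 0) {a : ℝ}
    (ha : ∀ z ∈ ball (0 : ℂ) 1, a < (ν * (h z + (starRingEnd ℂ) (g z))).re)
    {p : ℝ} (hp : 0 < p) (hp1 : p < 1 / 2) : MemH p h ∧ MemH p g := by
  obtain ⟨η, hη, hη2⟩ := exists_eta hν
  have h1 : p / (1 - p) < 1 := by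
    rw [div_lt_one (by linarith)]
    linarith
  obtain ⟨q, hq1, hq2⟩ := exists_between h1
  have hq0 : 0 < q := lt_trans (div_pos hp (by linarith)) hq1
  apply transfer hh hg hinj hJ hp (by linarith) hq1 hη
  apply memH_const_mul hq0 hν
  apply kolmogorov (a := a) ((hh.add (hg.const_mul η)).const_mul ν) _ hq0 hq2
  intro z hz
  have h2 := ha z hz
  rw [← (hη2 (h z) (g z)).2] at h2
  exact h2

theorem strip {h g : ℂ → ℂ} (hh : DifferentiableOn ℂ h (ball 0 1))
    (hg : DifferentiableOn ℂ g (ball 0 1))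
    (hinj : InjOn (fun z => h z + (starRingEnd ℂ) (g z)) (ball 0 1))
    (hJ : ∀ z ∈ ball (0 : ℂ) 1, ‖deriv g z‖ < ‖deriv h z‖)
    {ν : ℂ} (hν : ν ≠ 0) {a b : ℝ}
    (ha : ∀ z ∈ ball (0 : ℂ) 1, a < (ν * (h z + (starRingEnd ℂ) (g z))).re ∧
      (ν * (h z + (starRingEnd ℂ) (g z))).re < b)
    {p : ℝ} (hp : 0 < p) (hp1 : p < 1) : MemH p h ∧ MemH p g := by
  obtain ⟨η, hη, hη2⟩ := exists_eta hν
  have h1 : p / (1 - p) < p / (1 - p) + 1 := by linarith
  have hq0 : 0 < p / (1 - p) + 1 := by
    have : 0 < p / (1 - p) := div_pos hp (by linarith)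
    linarith
  apply transfer hh hg hinj hJ hp hp1 h1 hη
  apply memH_const_mul hq0 hν
  apply strip_memH (a := a) (b := b) ((hh.add (hg.const_mul η)).const_mul ν) _ hq0
  intro z hz
  have h2 := ha z hz
  rw [← (hη2 (h z) (g z)).2] at h2
  exact h2

end Pool.Agent.MP7da5c3
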