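import Pool.Agent.MP7da5c3.TransferLog

set_option autoImplicit false

namespace Pool.Agent.MP7da5c3

open Set Filter Topology MeasureTheory Metric

/-! From the logarithmic coordinate to the disk. -/

theorem normSq_identity (a w : ℂ) :
    ‖1 - (starRingEnd ℂ) a * w‖ ^ 2 - ‖w - a‖ ^ 2 = (1 - ‖a‖ ^ 2) * (1 - ‖w‖ ^ 2) := by
  rw [← Complex.normSq_eq_norm_sq, ← Complex.normSq_eq_norm_sq, ← Complex.normSq_eq_norm_sq,
    ← Complex.normSq_eq_norm_sq]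
  simp only [Complex.normSq_apply, Complex.mul_re, Complex.mul_im, Complex.conj_re,
    Complex.conj_im, Complex.sub_re, Complex.sub_im, Complex.one_re, Complex.one_im]
  ring

/-- a lower bound for the distance to the unit circle -/
theorem schwarz_pick {ω : ℂ → ℂ} (hω : DifferentiableOn ℂ ω (ball 0 1))
    (hm : ∀ z ∈ ball (0 : ℂ) 1, ‖ω z‖ < 1) {z : ℂ} (hz : z ∈ ball (0 : ℂ) 1) :
    (1 - ‖ω 0‖) / 2 * (1 - ‖z‖) ≤ 1 - ‖ω z‖ ^ 2 := by
  set a := ω 0 with ha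
  have ha1 : ‖a‖ < 1 := hm 0 (by simp)
  have hz1 : ‖z‖ < 1 := by simpa using hz
  have hlow : ∀ w : ℂ, ‖w‖ < 1 → 1 - ‖a‖ ≤ ‖1 - (starRingEnd ℂ) a * w‖ := by
    intro w hw
    have h1 : ‖(starRingEnd ℂ) a * w‖ ≤ ‖a‖ := by
      rw [norm_mul, RCLike.norm_conj]
      exact mul_le_of_le_one_right (norm_nonneg _) hw.le
    have h2 := norm_sub_norm_le (1 : ℂ) ((starRingEnd ℂ) a * w)
    rw [norm_one] at h2
    linarith
  have hne : ∀ w : ℂ, ‖w‖ < 1 → 1 - (starRingEnd ℂ) a * w ≠ 0 := by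
    intro w hw h
    have h1 := hlow w hw
    rw [h, norm_zero] at h1
    linarith
  have hsch : ‖(ω z - a) / (1 - (starRingEnd ℂ) a * ω z)‖ ≤ ‖z‖ := by
    refine Complex.norm_le_norm_of_mapsTo_ball
      (f := fun z => (ω z - a) / (1 - (starRingEnd ℂ) a * ω z)) (R := 1) ?_ ?_ ?_ hz1
    · apply (hω.sub_const a).div
      · exact (differentiableOn_const _).sub (hω.const_mul _)
      · intro x hx
        exact hne _ (hm x hx)
    · intro x hx
      rw [mem_closedBall_zero_iff, norm_div, div_le_one (norm_pos_iff.mpr (hne _ (hm x hx)))]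
      have h1 := normSq_identity a (ω x)
      have h2 : 0 ≤ (1 - ‖a‖ ^ 2) * (1 - ‖ω x‖ ^ 2) := by
        have h3 := hm x hx
        apply mul_nonneg <;> nlinarith [norm_nonneg a, norm_nonneg (ω x)]
      exact le_of_sq_le_sq (by linarith) (norm_nonneg _)
    · simp [ha]
  have hw1 := hm z hz
  rw [norm_div, div_le_iff₀ (norm_pos_iff.mpr (hne _ hw1))] at hsch
  have h1 := normSq_identity a (ω z)
  have h2 := hlow _ hw1
  have h3 : ‖ω z - a‖ ^ 2 ≤ ‖z‖ ^ 2 * ‖1 - (starRingEnd ℂ) a * ω z‖ ^ 2 := by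
    rw [← mul_pow]
    exact pow_le_pow_left₀ (norm_nonneg _) hsch 2
  have h4 : (1 - ‖z‖ ^ 2) * ‖1 - (starRingEnd ℂ) a * ω z‖ ^ 2 ≤
      (1 - ‖a‖ ^ 2) * (1 - ‖ω z‖ ^ 2) := by linarith
  have h5 : (1 - ‖a‖) ^ 2 ≤ ‖1 - (starRingEnd ℂ) a * ω z‖ ^ 2 :=
    pow_le_pow_left₀ (by linarith) h2 2
  have h6 : (1 - ‖z‖) ≤ 1 - ‖z‖ ^ 2 := by nlinarith [norm_nonneg z]
  have h7 : (1 - ‖z‖) * (1 - ‖a‖) ^ 2 ≤ (1 - ‖a‖ ^ 2) * (1 - ‖ω z‖ ^ 2) := by
    calc (1 - ‖z‖) * (1 - ‖a‖) ^ 2 ≤ (1 - ‖z‖ ^ 2) * ‖1 - (starRingEnd ℂ) a * ω z‖ ^ 2 := by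
          apply mul_le_mul h6 h5 (by positivity)
          linarith
      _ ≤ _ := h4
  have h8 : (1 - ‖a‖) * ((1 - ‖z‖) * (1 - ‖a‖)) ≤
      (1 - ‖a‖) * ((1 + ‖a‖) * (1 - ‖ω z‖ ^ 2)) := by
    calc (1 - ‖a‖) * ((1 - ‖z‖) * (1 - ‖a‖)) = (1 - ‖z‖) * (1 - ‖a‖) ^ 2 := by ring
      _ ≤ (1 - ‖a‖ ^ 2) * (1 - ‖ω z‖ ^ 2) := h7
      _ = _ := by ring
  have h9 := le_of_mul_le_mul_left h8 (by linarith)
  have h10 : 0 ≤ 1 - ‖ω z‖ ^ 2 := by nlinarith [norm_nonneg (ω z)]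
  nlinarith [norm_nonneg a]

theorem exp_mem {ζ : ℂ} (hζ : ζ ∈ LH) : Complex.exp ζ ∈ ball (0 : ℂ) 1 := by
  rw [mem_ball_zero_iff, Complex.norm_exp]
  rw [← Real.exp_zero]
  exact Real.exp_lt_exp.mpr hζ

theorem exp_per (ζ : ℂ) : Complex.exp (ζ + 2 * Real.pi * Complex.I) = Complex.exp ζ := by
  rw [Complex.exp_add, Complex.exp_two_pi_mul_I, mul_one]

theorem data_exp {F : ℂ → ℂ} (hF : DifferentiableOn ℂ F (ball 0 1)) :
    Data (fun ζ => F (Complex.exp ζ)) (fun ζ => deriv F (Complex.exp ζ) * Complex.exp ζ)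
      (fun ζ => deriv (deriv F) (Complex.exp ζ) * Complex.exp ζ * Complex.exp ζ
        + deriv F (Complex.exp ζ) * Complex.exp ζ) := by
  have hF' : DifferentiableOn ℂ (deriv F) (ball 0 1) := hF.deriv isOpen_ball
  have hF'' : DifferentiableOn ℂ (deriv (deriv F)) (ball 0 1) := hF'.deriv isOpen_ball
  have hd : ∀ (Q : ℂ → ℂ), DifferentiableOn ℂ Q (ball 0 1) → ∀ ζ ∈ LH,
      HasDerivAt (fun ζ => Q (Complex.exp ζ)) (deriv Q (Complex.exp ζ) * Complex.exp ζ) ζ := by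
    intro Q hQ ζ hζ
    have h1 := (hQ.differentiableAt (isOpen_ball.mem_nhds (exp_mem hζ))).hasDerivAt
    exact h1.comp ζ (Complex.hasDerivAt_exp ζ)
  refine ⟨hd F hF, fun ζ hζ => ?_, ?_, fun ζ => ?_, fun ζ => ?_⟩
  · exact (hd _ hF' ζ hζ).mul (Complex.hasDerivAt_exp ζ)
  · have hm : MapsTo Complex.exp LH (ball (0 : ℂ) 1) := fun ζ hζ => exp_mem hζ
    have ce : ContinuousOn Complex.exp LH := Complex.continuous_exp.continuousOn
    exact (((hF''.continuousOn.comp ce hm).mul ce).mul ce).add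
      ((hF'.continuousOn.comp ce hm).mul ce)
  · simp only [exp_per]
  · simp only [exp_per]

theorem exp_injOn_Rect (x0 : ℝ) : InjOn Complex.exp (Rect x0) := by
  intro ζ hζ ξ hξ h
  rw [Complex.exp_eq_exp_iff_exists_int] at h
  obtain ⟨n, hn⟩ := h
  have h1 := hζ.2
  have h2 := hξ.2
  have h3 : ζ.im = ξ.im + n * (2 * Real.pi) := by
    rw [hn]
    simp
  have h4 : (0 : ℝ) < ζ.im ∧ ζ.im < 2 * Real.pi := h1
  have h5 : (0 : ℝ) < ξ.im ∧ ξ.im < 2 * Real.pi := h2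
  have hpi := Real.pi_pos
  have h6 : n = 0 := by
    have h7 : (n : ℝ) < 1 := by
      by_contra hc
      push Not at hc
      nlinarith
    have h8 : (-1 : ℝ) < n := by
      by_contra hc
      push Not at hc
      nlinarith
    have h9 : n < 1 := by exact_mod_cast h7
    have h10 : -1 < n := by exact_mod_cast h8
    omega
  rw [hn, h6]
  simp

theorem mapf_exp (h g : ℂ → ℂ) (ζ : ℂ) :
    mapf (fun ζ => h (Complex.exp ζ) + g (Complex.exp ζ))
      (fun ζ => h (Complex.exp ζ) - g (Complex.exp ζ)) ζ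
      = h (Complex.exp ζ) + (starRingEnd ℂ) (g (Complex.exp ζ)) := by
  apply Complex.ext
  · simp [mapf]
  · simp [mapf, sub_eq_add_neg]

/-- membership in a Hardy class, without analyticity -/
def MemH (p : ℝ) (F : ℂ → ℂ) : Prop :=
  ∃ M : ℝ, ∀ r : ℝ, 0 ≤ r → r < 1 →
    ∫ θ in (0 : ℝ)..(2 * Real.pi), ‖F ((r : ℂ) * Complex.exp ((θ : ℂ) * Complex.I))‖ ^ p ≤ M

theorem circle_mem {r : ℝ} (hr : 0 ≤ r) (hr1 : r < 1) (θ : ℝ) :
    (r : ℂ) * Complex.exp ((θ : ℂ) * Complex.I) ∈ ball (0 : ℂ) 1 := by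
  rw [mem_ball_zero_iff, norm_mul, Complex.norm_exp_ofReal_mul_I, mul_one, Complex.norm_real,
    Real.norm_eq_abs, abs_of_nonneg hr]
  exact hr1

theorem continuous_circle {Q : ℂ → ℝ} (hQ : ContinuousOn Q (ball 0 1)) {r : ℝ} (hr : 0 ≤ r)
    (hr1 : r < 1) :
    Continuous (fun θ : ℝ => Q ((r : ℂ) * Complex.exp ((θ : ℂ) * Complex.I))) :=
  hQ.comp_continuous (by fun_prop) (fun θ => circle_mem hr hr1 θ)

theorem exp_log_coord {r : ℝ} (hr : 0 < r) (θ : ℝ) :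
    Complex.exp ((Real.log r : ℂ) + θ * Complex.I)
      = (r : ℂ) * Complex.exp ((θ : ℂ) * Complex.I) := by
  rw [Complex.exp_add, ← Complex.ofReal_exp, Real.exp_log hr]

/-- it is enough to bound the means close to the unit circle -/
theorem memH_of_near {Q : ℂ → ℝ} (hQ : ContinuousOn Q (ball 0 1)) {r0 : ℝ} (hr0 : r0 < 1)
    (h : ∃ M : ℝ, ∀ r : ℝ, r0 ≤ r → r < 1 →
      ∫ θ in (0 : ℝ)..(2 * Real.pi), Q ((r : ℂ) * Complex.exp ((θ : ℂ) * Complex.I)) ≤ M) :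
    ∃ M : ℝ, ∀ r : ℝ, 0 ≤ r → r < 1 →
      ∫ θ in (0 : ℝ)..(2 * Real.pi), Q ((r : ℂ) * Complex.exp ((θ : ℂ) * Complex.I)) ≤ M := by
  obtain ⟨M, hM⟩ := h
  have hc : IsCompact (closedBall (0 : ℂ) r0) := isCompact_closedBall 0 r0
  have hsub : closedBall (0 : ℂ) r0 ⊆ ball 0 1 := closedBall_subset_ball hr0
  obtain ⟨C, hC⟩ := hc.exists_bound_of_continuousOn (hQ.mono hsub)
  refine ⟨max M (C * (2 * Real.pi)), fun r hr hr1 => ?_⟩
  rcases le_total r0 r with h1 | h1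
  · exact (hM r h1 hr1).trans (le_max_left _ _)
  · refine le_trans ?_ (le_max_right _ _)
    have h2 : ∀ θ : ℝ, Q ((r : ℂ) * Complex.exp ((θ : ℂ) * Complex.I)) ≤ C := by
      intro θ
      have h3 : (r : ℂ) * Complex.exp ((θ : ℂ) * Complex.I) ∈ closedBall (0 : ℂ) r0 := by
        rw [mem_closedBall_zero_iff, norm_mul, Complex.norm_exp_ofReal_mul_I, mul_one,
          Complex.norm_real, Real.norm_eq_abs, abs_of_nonneg hr]
        exact h1
      exact (le_abs_self _).trans (hC _ h3)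
    have h4 : ∫ θ in (0 : ℝ)..(2 * Real.pi),
        Q ((r : ℂ) * Complex.exp ((θ : ℂ) * Complex.I)) ≤ ∫ _ in (0 : ℝ)..(2 * Real.pi), C := by
      apply intervalIntegral.integral_mono_on (by positivity)
      · exact (continuous_circle hQ hr hr1).intervalIntegrable _ _
      · exact intervalIntegrable_const
      · intro θ _
        exact h2 θ
    rw [intervalIntegral.integral_const, smul_eq_mul, sub_zero] at h4
    rw [mul_comm C]
    exact h4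

/-- monotonicity of means -/
theorem means_mono {P Q : ℂ → ℝ} (hP : ContinuousOn P (ball 0 1)) (hQ : ContinuousOn Q (ball 0 1))
    (hPQ : ∀ z ∈ ball (0 : ℂ) 1, P z ≤ Q z) {r : ℝ} (hr : 0 ≤ r) (hr1 : r < 1) :
    ∫ θ in (0 : ℝ)..(2 * Real.pi), P ((r : ℂ) * Complex.exp ((θ : ℂ) * Complex.I)) ≤
      ∫ θ in (0 : ℝ)..(2 * Real.pi), Q ((r : ℂ) * Complex.exp ((θ : ℂ) * Complex.I)) := by
  apply intervalIntegral.integral_mono_on (by positivity)
  · exact (continuous_circle hP hr hr1).intervalIntegrable _ _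
  · exact (continuous_circle hQ hr hr1).intervalIntegrable _ _
  · intro θ _
    exact hPQ _ (circle_mem hr hr1 θ)

end Pool.Agent.MP7da5c3
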