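import Pool.Agent.MP7da5c3.Calc

set_option autoImplicit false

namespace Pool.Agent.MP7da5c3

open Set Filter Topology MeasureTheory

/-! One-dimensional second order inequality, and iterated integrals over a rectangle. -/

theorem continuousOn_mean {P : ℂ → ℝ} (hP : ContinuousOn P LH) : ContinuousOn (mean P) (Iio 0) := by
  rw [continuousOn_iff_continuous_domRestrict]
  have : LocallyCompactSpace (Iio (0 : ℝ)) := isOpen_Iio.locallyCompactSpace
  have h : Continuous (Function.uncurry
      (fun (x : Iio (0 : ℝ)) (θ : ℝ) => P ((x : ℝ) + θ * Complex.I))) := by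
    apply hP.comp_continuous
    · fun_prop
    · intro q
      exact mem_LH q.1.2
  exact intervalIntegral.continuous_parametric_intervalIntegral_of_continuous' h _ _

theorem second_order {N N1 N2 a : ℝ → ℝ} {x0 K : ℝ} (hx0 : x0 < 0)
    (h1 : ∀ x < 0, HasDerivAt N (N1 x) x) (h2 : ∀ x < 0, HasDerivAt N1 (N2 x) x)
    (ha : ContinuousOn a (Iio 0)) (ha0 : ∀ x < 0, 0 ≤ a x) (hN : ∀ x < 0, N2 x ≤ a x)
    (hK : ∀ x, x0 ≤ x → x < 0 → ∫ t in x0..x, |t| * a t ≤ K) {x : ℝ} (hx : x0 ≤ x) (hx' : x < 0) :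
    N x ≤ N x0 + |N1 x0| * |x0| + K := by
  have hint : ∀ y z : ℝ, y < 0 → z < 0 → ∀ c : ℝ → ℝ, ContinuousOn c (Iio 0) →
      IntervalIntegrable c volume y z := by
    intro y z hy hz c hc
    apply ContinuousOn.intervalIntegrable
    apply hc.mono
    intro t ht
    have := ht.2
    exact lt_of_le_of_lt this (max_lt hy hz)
  have hprim : ∀ c : ℝ → ℝ, ContinuousOn c (Iio 0) → ∀ y < 0,
      HasDerivAt (fun y => ∫ t in x0..y, c t) (c y) y := by
    intro c hc y hy
    exact intervalIntegral.integral_hasDerivAt_right (hint x0 y hx0 hy c hc)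
      (hc.stronglyMeasurableAtFilter isOpen_Iio y hy) (hc.continuousAt (Iio_mem_nhds hy))
  have hta : ContinuousOn (fun t => t * a t) (Iio 0) := continuousOn_id.mul ha
  set g1 : ℝ → ℝ := fun y => ∫ t in x0..y, a t with hg1
  set g : ℝ → ℝ := fun y => y * g1 y - ∫ t in x0..y, t * a t with hg
  have hg1' : ∀ y < 0, HasDerivAt g1 (a y) y := hprim a ha
  have hg' : ∀ y < 0, HasDerivAt g (g1 y) y := by
    intro y hy
    have h3 := ((hasDerivAt_id y).mul (hg1' y hy)).sub (hprim _ hta y hy)
    refine h3.congr_deriv ?_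
    simp only [id]
    ring
  -- `N1 - g1` is antitone
  have hIcc : ∀ y ∈ Icc x0 x, y < 0 := fun y hy => lt_of_le_of_lt hy.2 hx'
  have hanti : AntitoneOn (fun y => N1 y - g1 y) (Icc x0 x) := by
    apply antitoneOn_of_deriv_nonpos (convex_Icc _ _)
    · intro y hy
      exact ((h2 y (hIcc y hy)).sub (hg1' y (hIcc y hy))).continuousAt.continuousWithinAt
    · intro y hy
      rw [interior_Icc] at hy
      exact ((h2 y (hIcc y (Ioo_subset_Icc_self hy))).sub
        (hg1' y (hIcc y (Ioo_subset_Icc_self hy)))).differentiableAt.differentiableWithinAt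
    · intro y hy
      rw [interior_Icc] at hy
      have hy0 := hIcc y (Ioo_subset_Icc_self hy)
      have h3 := ((h2 y hy0).sub (hg1' y hy0)).deriv
      have h4 : deriv (fun y => N1 y - g1 y) y = N2 y - a y := h3
      rw [h4]
      linarith [hN y hy0]
  have hg10 : g1 x0 = 0 := intervalIntegral.integral_same
  have hle : ∀ y ∈ Icc x0 x, N1 y - g1 y ≤ N1 x0 := by
    intro y hy
    have h3 := hanti (left_mem_Icc.mpr hx) hy hy.1
    simp only [hg10, sub_zero] at h3
    exact h3
  have hanti2 : AntitoneOn (fun y => N y - g y - N1 x0 * y) (Icc x0 x) := by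
    have hd : ∀ y < 0, HasDerivAt (fun y => N y - g y - N1 x0 * y) (N1 y - g1 y - N1 x0) y := by
      intro y hy
      have h3 := ((h1 y hy).sub (hg' y hy)).sub ((hasDerivAt_id y).const_mul (N1 x0))
      refine h3.congr_deriv ?_
      ring
    apply antitoneOn_of_deriv_nonpos (convex_Icc _ _)
    · intro y hy
      exact (hd y (hIcc y hy)).continuousAt.continuousWithinAt
    · intro y hy
      rw [interior_Icc] at hy
      exact (hd y (hIcc y (Ioo_subset_Icc_self hy))).differentiableAt.differentiableWithinAt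
    · intro y hy
      rw [interior_Icc] at hy
      rw [(hd y (hIcc y (Ioo_subset_Icc_self hy))).deriv]
      linarith [hle y (Ioo_subset_Icc_self hy)]
  have h3 := hanti2 (left_mem_Icc.mpr hx) (right_mem_Icc.mpr hx) hx
  have hg0 : g x0 = 0 := by
    simp only [hg, hg10, mul_zero, intervalIntegral.integral_same, sub_zero]
  simp only [hg0] at h3
  -- bound for `g x`
  have hgx : g x ≤ K := by
    refine le_trans ?_ (hK x hx hx')
    have h4 : g x = ∫ t in x0..x, (x * a t - t * a t) := by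
      rw [intervalIntegral.integral_sub ((hint x0 x hx0 hx' a ha).const_mul x)
        (hint x0 x hx0 hx' _ hta), intervalIntegral.integral_const_mul]
    rw [h4]
    apply intervalIntegral.integral_mono_on hx
    · exact ((hint x0 x hx0 hx' a ha).const_mul x).sub (hint x0 x hx0 hx' _ hta)
    · exact hint x0 x hx0 hx' _ (continuous_abs.continuousOn.mul ha)
    · intro t ht
      have ht0 : t < 0 := hIcc t ht
      rw [abs_of_neg ht0]
      nlinarith [ha0 t ht0]
  have h5 : N1 x0 * (x - x0) ≤ |N1 x0| * |x0| := by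
    have h6 : N1 x0 * (x - x0) ≤ |N1 x0| * (x - x0) := by
      apply mul_le_mul_of_nonneg_right (le_abs_self _)
      linarith
    have h7 : x - x0 ≤ |x0| := by
      rw [abs_of_neg hx0]
      linarith
    exact h6.trans (mul_le_mul_of_nonneg_left h7 (abs_nonneg _))
  linarith

/-- the open rectangle -/
def Rect (x0 : ℝ) : Set ℂ := Ioo x0 0 ×ℂ Ioo 0 (2 * Real.pi)

theorem measurableSet_Rect (x0 : ℝ) : MeasurableSet (Rect x0) :=
  (isOpen_Ioo.reProdIm isOpen_Ioo).measurableSet

theorem Rect_subset (x0 : ℝ) : Rect x0 ⊆ LH := fun _ hζ => hζ.1.2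

theorem iterated_le {g : ℂ → ℝ} (hg : ContinuousOn g LH) (hg0 : ∀ ζ ∈ LH, 0 ≤ g ζ)
    {x0 x K : ℝ} (h : x0 ≤ x) (hx : x < 0) (hK : 0 ≤ K)
    (hint : ∫⁻ ζ in Rect x0, ENNReal.ofReal (g ζ) ≤ ENNReal.ofReal K) :
    ∫ t in x0..x, mean g t ≤ K := by
  have hx0 : x0 < 0 := lt_of_le_of_lt h hx
  have hIcc : ∀ t ∈ Icc x0 x, t < 0 := fun t ht => lt_of_le_of_lt ht.2 hx
  have hmean0 : ∀ t < 0, 0 ≤ mean g t := by
    intro t ht
    apply intervalIntegral.integral_nonneg (by positivity)
    intro θ _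
    exact hg0 _ (mem_LH ht)
  have hπ : (0 : ℝ) ≤ 2 * Real.pi := by positivity
  rw [← ENNReal.ofReal_le_ofReal_iff hK]
  refine le_trans ?_ hint
  rw [intervalIntegral.integral_of_le h]
  have hcont : ContinuousOn (mean g) (Icc x0 x) :=
    (continuousOn_mean hg).mono (fun t ht => hIcc t ht)
  rw [ofReal_integral_eq_lintegral_ofReal (hcont.integrableOn_Icc.mono_set Ioc_subset_Icc_self)
    ((ae_restrict_iff' measurableSet_Ioc).mpr (Eventually.of_forall fun t ht =>
      hmean0 t (hIcc t (Ioc_subset_Icc_self ht))))]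
  have h1 : ∫⁻ t in Ioc x0 x, ENNReal.ofReal (mean g t)
      = ∫⁻ t in Ioc x0 x, ∫⁻ θ in Ioo 0 (2 * Real.pi), ENNReal.ofReal (g (t + θ * Complex.I)) := by
    apply setLIntegral_congr_fun measurableSet_Ioc
    intro t ht
    have ht0 : t < 0 := hIcc t (Ioc_subset_Icc_self ht)
    have hc := continuous_slice hg ht0
    show ENNReal.ofReal (mean g t) = _
    unfold mean
    rw [intervalIntegral.integral_of_le hπ, ofReal_integral_eq_lintegral_ofReal
      (hc.integrableOn_Ioc) (Eventually.of_forall fun θ => hg0 _ (mem_LH ht0))]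
    exact setLIntegral_congr Ioo_ae_eq_Ioc.symm
  rw [h1]
  have h2 : ∫⁻ t in Ioc x0 x, ∫⁻ θ in Ioo 0 (2 * Real.pi), ENNReal.ofReal (g (t + θ * Complex.I))
      ≤ ∫⁻ t in Ioo x0 0, ∫⁻ θ in Ioo 0 (2 * Real.pi), ENNReal.ofReal (g (t + θ * Complex.I)) := by
    apply lintegral_mono_set
    intro t ht
    exact ⟨ht.1, lt_of_le_of_lt ht.2 hx⟩
  refine h2.trans (le_of_eq ?_)
  have e := Complex.volume_preserving_equiv_real_prod.symm
  have h3 := e.setLIntegral_comp_preimage_emb Complex.measurableEquivRealProd.symm.measurableEmbedding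
    (fun ζ => ENNReal.ofReal (g ζ)) (Rect x0)
  rw [← h3]
  have h4 : (Complex.measurableEquivRealProd.symm : ℝ × ℝ → ℂ) ⁻¹' (Rect x0)
      = Ioo x0 0 ×ˢ Ioo 0 (2 * Real.pi) := by
    ext q
    simp only [Rect, mem_preimage, Complex.mem_reProdIm, mem_prod,
      Complex.measurableEquivRealProd_symm_apply]
  rw [h4]
  have h5 : ∀ q : ℝ × ℝ, Complex.measurableEquivRealProd.symm q = (q.1 : ℂ) + q.2 * Complex.I := by
    intro q
    rw [Complex.measurableEquivRealProd_symm_apply]
    exact Complex.mk_eq_add_mul_I q.1 q.2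
  simp only [h5]
  rw [Measure.volume_eq_prod, ← Measure.prod_restrict, lintegral_prod]
  rw [Measure.prod_restrict]
  apply AEMeasurable.ennreal_ofReal
  apply ContinuousOn.aemeasurable _ (measurableSet_Ioo.prod measurableSet_Ioo)
  apply hg.comp (by fun_prop)
  intro q hq
  exact mem_LH hq.1.2

end Pool.Agent.MP7da5c3
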