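import Pool.Agent.MP7da5c3.Calc

set_option autoImplicit false

namespace Pool.Agent.MP7da5c3

open Set Filter Topology Complex

/-! The comparison function `T = (1 + |F|^2 + (1 + |G|^2)^k)^(p/2)` and its Laplacian. -/

theorem inner_sq_add (a b : ℂ) :
    (inner ℝ a (b * 1)) ^ 2 + (inner ℝ a (b * I)) ^ 2 = ‖a‖ ^ 2 * ‖b‖ ^ 2 := by
  rw [Complex.inner, Complex.inner, ← Complex.normSq_eq_norm_sq, ← Complex.normSq_eq_norm_sq]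
  simp only [Complex.normSq_apply, Complex.mul_re, Complex.mul_im, Complex.conj_re,
    Complex.conj_im, Complex.I_re, Complex.I_im, mul_one]
  ring

theorem inner_add_zero (a b : ℂ) :
    inner ℝ a (b * 1 * 1) + inner ℝ a (b * I * I) = 0 := by
  have h : b * I * I = - (b * 1 * 1) := by
    rw [mul_assoc, Complex.I_mul_I]
    ring
  rw [h, inner_neg_right]
  ring

theorem norm_sq_add (b : ℂ) : ‖b * 1‖ ^ 2 + ‖b * I‖ ^ 2 = 2 * ‖b‖ ^ 2 := by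
  rw [mul_one, norm_mul, Complex.norm_I, mul_one]
  ring

theorem hasDerivAt_rpow_pos {a x : ℝ} (hx : 0 < x) :
    HasDerivAt (fun y : ℝ => y ^ a) (a * x ^ (a - 1)) x :=
  Real.hasDerivAt_rpow_const (Or.inl hx.ne')

theorem hasDerivAt_rpow_pos' {a x : ℝ} (hx : 0 < x) :
    HasDerivAt (fun y : ℝ => a * y ^ (a - 1)) (a * (a - 1) * x ^ (a - 2)) x := by
  have h := (hasDerivAt_rpow_pos (a := a - 1) hx).const_mul a
  refine h.congr_deriv ?_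
  have h2 : a - 1 - 1 = a - 2 := by ring
  rw [h2]
  ring

theorem continuousOn_rpow_aux (a : ℝ) :
    ContinuousOn (fun x : ℝ => a * (a - 1) * x ^ (a - 2)) (Ioi 0) := by
  apply ContinuousOn.mul continuousOn_const
  intro x hx
  exact (Real.continuousAt_rpow_const x _ (Or.inl (ne_of_gt hx))).continuousWithinAt

/-- real powers -/
theorem D2.rpow {P : ℂ → ℝ} {P1 P2 : ℂ → ℂ → ℝ} (h : D2 P P1 P2) (hpos : ∀ ζ ∈ LH, 0 < P ζ)
    (a : ℝ) : D2 (fun ζ => P ζ ^ a) (fun c ζ => a * P ζ ^ (a - 1) * P1 c ζ)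
      (fun c ζ => a * (a - 1) * P ζ ^ (a - 2) * P1 c ζ ^ 2 + a * P ζ ^ (a - 1) * P2 c ζ) :=
  h.comp (φ := fun x => x ^ a) (φ1 := fun x => a * x ^ (a - 1))
    (φ2 := fun x => a * (a - 1) * x ^ (a - 2)) (S := Ioi 0) hpos
    (fun _ hx => hasDerivAt_rpow_pos hx) (fun _ hx => hasDerivAt_rpow_pos' hx)
    (continuousOn_rpow_aux a)

/-- periodic analytic data on the left half plane -/
structure Data (F F1 F2 : ℂ → ℂ) : Prop where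
  h1 : ∀ ζ ∈ LH, HasDerivAt F (F1 ζ) ζ
  h2 : ∀ ζ ∈ LH, HasDerivAt F1 (F2 ζ) ζ
  h3 : ContinuousOn F2 LH
  per : ∀ ζ, F (ζ + 2 * Real.pi * I) = F ζ
  per1 : ∀ ζ, F1 (ζ + 2 * Real.pi * I) = F1 ζ

/-- pointwise inequality between the Laplacians -/
theorem lap_ineq {A B f g k p s1 t1 s2 t2 : ℝ} (hA : 0 ≤ A) (hB : 0 ≤ B)
    (hk : 1 ≤ k) (hp : 0 < p) (hp2 : p ≤ 2) (hg : 0 ≤ g)
    (hst : t1 ^ 2 + t2 ^ 2 = 4 * (B * g)) :
    (p / 2) * (p / 2 - 1) * (1 + A + (1 + B) ^ k) ^ (p / 2 - 2) * (s1 ^ 2 + s2 ^ 2)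
      + (p / 2) * (1 + A + (1 + B) ^ k) ^ (p / 2 - 1) * (4 * f
        + (k * (k - 1) * (1 + B) ^ (k - 2) * (t1 ^ 2 + t2 ^ 2)
          + k * (1 + B) ^ (k - 1) * (4 * g)))
      ≤ 2 * p * (1 + A + (1 + B) ^ k) ^ (p / 2 - 1) * f
        + (2 / p + k) *
          ((k * p / 2) * (k * p / 2 - 1) * (1 + B) ^ (k * p / 2 - 2) * (t1 ^ 2 + t2 ^ 2)
          + (k * p / 2) * (1 + B) ^ (k * p / 2 - 1) * (4 * g)) := by
  set S := 1 + A + (1 + B) ^ k with hS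
  have hB1 : 0 < 1 + B := by linarith
  have hBk : 0 < (1 + B) ^ k := Real.rpow_pos_of_pos hB1 k
  have hSpos : 0 < S := by rw [hS]; linarith
  have e1 : (p / 2) * (p / 2 - 1) * S ^ (p / 2 - 2) * (s1 ^ 2 + s2 ^ 2) ≤ 0 := by
    have h1 : 0 ≤ S ^ (p / 2 - 2) := (Real.rpow_pos_of_pos hSpos _).le
    have h2 : (p / 2) * (p / 2 - 1) ≤ 0 := by nlinarith
    exact mul_nonpos_of_nonpos_of_nonneg (mul_nonpos_of_nonpos_of_nonneg h2 h1) (by positivity)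
  -- the `G` part of the Laplacian of `(1+B)^k`
  have hr1 : (1 + B) ^ (k - 1) = (1 + B) ^ (k - 2) * (1 + B) := by
    rw [← Real.rpow_add_one hB1.ne']
    congr 1
    ring
  have e2 : k * (k - 1) * (1 + B) ^ (k - 2) * (t1 ^ 2 + t2 ^ 2)
      + k * (1 + B) ^ (k - 1) * (4 * g) ≤ 4 * k ^ 2 * (1 + B) ^ (k - 1) * g := by
    rw [hst, hr1]
    have h1 : 0 ≤ (1 + B) ^ (k - 2) := (Real.rpow_pos_of_pos hB1 _).le
    have h2 : 4 * k ^ 2 * ((1 + B) ^ (k - 2) * (1 + B)) * g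
        - (k * (k - 1) * (1 + B) ^ (k - 2) * (4 * (B * g))
          + k * ((1 + B) ^ (k - 2) * (1 + B)) * (4 * g))
        = 4 * k * (k - 1) * (1 + B) ^ (k - 2) * g := by ring
    have h3 : 0 ≤ 4 * k * (k - 1) * (1 + B) ^ (k - 2) * g := by
      apply mul_nonneg (mul_nonneg (mul_nonneg _ _) h1) hg
      · linarith
      · linarith
    linarith
  have e3 : S ^ (p / 2 - 1) ≤ (1 + B) ^ (k * (p / 2 - 1)) := by
    rw [Real.rpow_mul hB1.le]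
    apply Real.rpow_le_rpow_of_nonpos hBk
    · rw [hS]; linarith
    · linarith
  have e4 : (1 + B) ^ (k * (p / 2 - 1)) * (1 + B) ^ (k - 1) = (1 + B) ^ (k * p / 2 - 1) := by
    rw [← Real.rpow_add hB1]
    congr 1
    ring
  have hr2 : (1 + B) ^ (k * p / 2 - 1) = (1 + B) ^ (k * p / 2 - 2) * (1 + B) := by
    rw [← Real.rpow_add_one hB1.ne']
    congr 1
    ring
  have hX : 0 ≤ (1 + B) ^ (k * p / 2 - 1) := (Real.rpow_pos_of_pos hB1 _).le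
  have e5 : 2 * p * k ^ 2 * (1 + B) ^ (k * p / 2 - 1) * g ≤ (2 / p + k) *
      ((k * p / 2) * (k * p / 2 - 1) * (1 + B) ^ (k * p / 2 - 2) * (t1 ^ 2 + t2 ^ 2)
          + (k * p / 2) * (1 + B) ^ (k * p / 2 - 1) * (4 * g)) := by
    have h1 : 0 ≤ (1 + B) ^ (k * p / 2 - 2) := (Real.rpow_pos_of_pos hB1 _).le
    have hk0 : 0 < k := by linarith
    have h0 : (k * p / 2) * (k * p / 2 - 1) * (1 + B) ^ (k * p / 2 - 2) * (t1 ^ 2 + t2 ^ 2)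
          + (k * p / 2) * (1 + B) ^ (k * p / 2 - 1) * (4 * g)
        = 2 * (k * p) * (1 + k * p / 2 * B) * (1 + B) ^ (k * p / 2 - 2) * g := by
      rw [hst, hr2]
      ring
    have h4 : (2 * p * k ^ 2) * (1 + B) ≤
        (2 / p + k) * (2 * (k * p) * (1 + k * p / 2 * B)) := by
      have h5 : (2 / p + k) * (2 * (k * p) * (1 + k * p / 2 * B))
          = (2 + k * p) * (2 * k * (1 + k * p / 2 * B)) := by
        field_simp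
      rw [h5]
      have h6 : 0 ≤ k * B := by positivity
      have h7 : 0 ≤ k ^ 2 * p * B := by positivity
      have h8 : 0 ≤ k ^ 3 * p ^ 2 * B := by positivity
      nlinarith
    rw [h0, hr2]
    calc 2 * p * k ^ 2 * ((1 + B) ^ (k * p / 2 - 2) * (1 + B)) * g
        = ((2 * p * k ^ 2) * (1 + B)) * ((1 + B) ^ (k * p / 2 - 2) * g) := by ring
      _ ≤ ((2 / p + k) * (2 * (k * p) * (1 + k * p / 2 * B))) *
          ((1 + B) ^ (k * p / 2 - 2) * g) := by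
          apply mul_le_mul_of_nonneg_right h4 (by positivity)
      _ = _ := by ring
  have hSp : 0 ≤ S ^ (p / 2 - 1) := (Real.rpow_pos_of_pos hSpos _).le
  have e6 : (p / 2) * S ^ (p / 2 - 1) * (k * (k - 1) * (1 + B) ^ (k - 2) * (t1 ^ 2 + t2 ^ 2)
      + k * (1 + B) ^ (k - 1) * (4 * g)) ≤ 2 * p * k ^ 2 * (1 + B) ^ (k * p / 2 - 1) * g := by
    calc (p / 2) * S ^ (p / 2 - 1) * (k * (k - 1) * (1 + B) ^ (k - 2) * (t1 ^ 2 + t2 ^ 2)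
      + k * (1 + B) ^ (k - 1) * (4 * g))
        ≤ (p / 2) * S ^ (p / 2 - 1) * (4 * k ^ 2 * (1 + B) ^ (k - 1) * g) := by
          apply mul_le_mul_of_nonneg_left e2 (by positivity)
      _ ≤ (p / 2) * (1 + B) ^ (k * (p / 2 - 1)) * (4 * k ^ 2 * (1 + B) ^ (k - 1) * g) := by
          have h1 : 0 ≤ (1 + B) ^ (k - 1) := (Real.rpow_pos_of_pos hB1 _).le
          gcongr
      _ = 2 * p * k ^ 2 * ((1 + B) ^ (k * (p / 2 - 1)) * (1 + B) ^ (k - 1)) * g := by ring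
      _ = 2 * p * k ^ 2 * (1 + B) ^ (k * p / 2 - 1) * g := by rw [e4]
  have e8 : (p / 2) * S ^ (p / 2 - 1) * (4 * f
        + (k * (k - 1) * (1 + B) ^ (k - 2) * (t1 ^ 2 + t2 ^ 2)
          + k * (1 + B) ^ (k - 1) * (4 * g)))
      = 2 * p * S ^ (p / 2 - 1) * f + (p / 2) * S ^ (p / 2 - 1) *
        (k * (k - 1) * (1 + B) ^ (k - 2) * (t1 ^ 2 + t2 ^ 2)
          + k * (1 + B) ^ (k - 1) * (4 * g)) := by ring
  rw [e8]
  linarith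

/-- the comparison function and its derivatives -/
theorem exists_T {F F1 F2 G G1 G2 : ℂ → ℂ} (hF : Data F F1 F2) (hG : Data G G1 G2) {k p : ℝ}
    (hk : 1 ≤ k) (hp : 0 < p) (hp2 : p ≤ 2) :
    ∃ T1 T2 U1 U2 : ℂ → ℂ → ℝ,
      D2 (fun ζ => (1 + ‖F ζ‖ ^ 2 + (1 + ‖G ζ‖ ^ 2) ^ k) ^ (p / 2)) T1 T2 ∧
      D2 (fun ζ => (1 + ‖G ζ‖ ^ 2) ^ (k * p / 2)) U1 U2 ∧
      (∀ ζ ∈ LH, T1 I (ζ + 2 * Real.pi * I) = T1 I ζ) ∧
      (∀ ζ ∈ LH, U1 I (ζ + 2 * Real.pi * I) = U1 I ζ) ∧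
      (∀ ζ ∈ LH, T2 1 ζ + T2 I ζ ≤
        2 * p * (1 + ‖F ζ‖ ^ 2 + (1 + ‖G ζ‖ ^ 2) ^ k) ^ (p / 2 - 1) * ‖F1 ζ‖ ^ 2
          + (2 / p + k) * (U2 1 ζ + U2 I ζ)) := by
  have dA := D2.normSq hF.h1 hF.h2 hF.h3
  have dB := D2.normSq hG.h1 hG.h2 hG.h3
  have dB1 := dB.const_add 1
  have posB : ∀ ζ ∈ LH, 0 < 1 + ‖G ζ‖ ^ 2 := fun ζ _ => by positivity
  have dBk := dB1.rpow posB k
  have dS := (dA.const_add 1).add dBk
  have posS : ∀ ζ ∈ LH, 0 < 1 + ‖F ζ‖ ^ 2 + (1 + ‖G ζ‖ ^ 2) ^ k := fun ζ _ => by positivity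
  have dT := dS.rpow posS (p / 2)
  have dU := dB1.rpow posB (k * p / 2)
  refine ⟨_, _, _, _, dT, dU, ?_, ?_, ?_⟩
  · intro ζ _
    simp only [hF.per, hF.per1, hG.per, hG.per1]
  · intro ζ _
    simp only [hG.per, hG.per1]
  · intro ζ _
    have hst : (2 * inner ℝ (G ζ) (G1 ζ * 1)) ^ 2 + (2 * inner ℝ (G ζ) (G1 ζ * I)) ^ 2
        = 4 * (‖G ζ‖ ^ 2 * ‖G1 ζ‖ ^ 2) := by
      rw [← inner_sq_add]
      ring
    have h := lap_ineq (A := ‖F ζ‖ ^ 2) (B := ‖G ζ‖ ^ 2) (f := ‖F1 ζ‖ ^ 2) (g := ‖G1 ζ‖ ^ 2)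
      (k := k) (p := p)
      (s1 := 2 * inner ℝ (F ζ) (F1 ζ * 1)
        + k * (1 + ‖G ζ‖ ^ 2) ^ (k - 1) * (2 * inner ℝ (G ζ) (G1 ζ * 1)))
      (s2 := 2 * inner ℝ (F ζ) (F1 ζ * I)
        + k * (1 + ‖G ζ‖ ^ 2) ^ (k - 1) * (2 * inner ℝ (G ζ) (G1 ζ * I)))
      (by positivity) (by positivity) hk hp hp2 (by positivity) hst
    have n1 := norm_sq_add (F1 ζ)
    have n2 := norm_sq_add (G1 ζ)
    have i1 := inner_add_zero (F ζ) (F2 ζ)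
    have i2 := inner_add_zero (G ζ) (G2 ζ)
    refine le_trans (le_of_eq ?_) (h.trans (le_of_eq ?_))
    · have h4 : 4 * ‖F1 ζ‖ ^ 2 = 2 * (inner ℝ (F ζ) (F2 ζ * 1 * 1) + ‖F1 ζ * 1‖ ^ 2)
          + 2 * (inner ℝ (F ζ) (F2 ζ * I * I) + ‖F1 ζ * I‖ ^ 2) := by linarith
      have h5 : 4 * ‖G1 ζ‖ ^ 2 = 2 * (inner ℝ (G ζ) (G2 ζ * 1 * 1) + ‖G1 ζ * 1‖ ^ 2)
          + 2 * (inner ℝ (G ζ) (G2 ζ * I * I) + ‖G1 ζ * I‖ ^ 2) := by linarith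
      rw [h4, h5]
      ring
    · have h5 : 4 * ‖G1 ζ‖ ^ 2 = 2 * (inner ℝ (G ζ) (G2 ζ * 1 * 1) + ‖G1 ζ * 1‖ ^ 2)
          + 2 * (inner ℝ (G ζ) (G2 ζ * I * I) + ‖G1 ζ * I‖ ^ 2) := by linarith
      rw [h5]
      ring

end Pool.Agent.MP7da5c3
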