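import Pool.Agent.MP7da5c3.Disk

set_option autoImplicit false

namespace Pool.Agent.MP7da5c3

open Set Filter Topology MeasureTheory Metric

/-- the transfer principle for `h - g` -/
theorem transfer_sub {h g : ℂ → ℂ} (hh : DifferentiableOn ℂ h (ball 0 1))
    (hg : DifferentiableOn ℂ g (ball 0 1))
    (hinj : InjOn (fun z => h z + (starRingEnd ℂ) (g z)) (ball 0 1))
    (hJ : ∀ z ∈ ball (0 : ℂ) 1, ‖deriv g z‖ < ‖deriv h z‖)
    {p q : ℝ} (hp : 0 < p) (hp1 : p < 1) (hq : p / (1 - p) < q)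
    (hG : MemH q (fun z => h z - g z)) : MemH p h ∧ MemH p g := by
  have h1p : 0 < 1 - p := by linarith
  have hq0 : 0 < q := lt_trans (by positivity) hq
  set k : ℝ := q / p with hk
  have hkp : k * p = q := by rw [hk]; field_simp
  have hk1 : 1 < k * (1 - p) := by
    rw [div_lt_iff₀ h1p] at hq
    rw [hk, div_mul_eq_mul_div, lt_div_iff₀ hp]
    linarith
  have hk0 : 1 ≤ k := by
    have : 0 < k := by rw [hk]; positivity
    nlinarith
  -- the functions in the logarithmic coordinate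
  have hF : DifferentiableOn ℂ (fun z => h z + g z) (ball 0 1) := hh.add hg
  have hG' : DifferentiableOn ℂ (fun z => h z - g z) (ball 0 1) := hh.sub hg
  have dF := data_exp hF
  have dG := data_exp hG'
  -- the dilatation
  have hh' : DifferentiableOn ℂ (deriv h) (ball 0 1) := hh.deriv isOpen_ball
  have hg' : DifferentiableOn ℂ (deriv g) (ball 0 1) := hg.deriv isOpen_ball
  have hne : ∀ z ∈ ball (0 : ℂ) 1, deriv h z ≠ 0 := by
    intro z hz h0
    have := hJ z hz
    rw [h0, norm_zero] at this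
    exact absurd this (not_lt.mpr (norm_nonneg _))
  set ω : ℂ → ℂ := fun z => deriv g z / deriv h z with hω
  have hωd : DifferentiableOn ℂ ω (ball 0 1) := hg'.div hh' hne
  have hω1 : ∀ z ∈ ball (0 : ℂ) 1, ‖ω z‖ < 1 := by
    intro z hz
    rw [hω]
    simp only
    rw [norm_div, div_lt_one (norm_pos_iff.mpr (hne z hz))]
    exact hJ z hz
  set c : ℝ := (1 - ‖ω 0‖) / 2 with hc
  have hc0 : 0 < c := by
    have := hω1 0 (by simp)
    rw [hc]
    linarith
  have hder : ∀ z ∈ ball (0 : ℂ) 1, deriv (fun z => h z + g z) z = deriv h z + deriv g z ∧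
      deriv (fun z => h z - g z) z = deriv h z - deriv g z := by
    intro z hz
    have a1 := hh.differentiableAt (isOpen_ball.mem_nhds hz)
    have a2 := hg.differentiableAt (isOpen_ball.mem_nhds hz)
    exact ⟨deriv_add a1 a2, deriv_sub a1 a2⟩
  have key := transfer_log dF dG (C := 8 / c) (x0 := -1) (by norm_num) (by positivity) ?_ ?_
    (k := k) (p := p) hk0 hp hp1 hk1 ?_
  rotate_left
  · -- injectivity
    intro ζ hζ ξ hξ he
    rw [mapf_exp, mapf_exp] at he
    apply exp_injOn_Rect (-1) hζ hξ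
    exact hinj (exp_mem (Rect_subset _ hζ)) (exp_mem (Rect_subset _ hξ)) he
  · -- the Jacobian
    intro ζ hζ
    have hζL := Rect_subset _ hζ
    have hz := exp_mem hζL
    set z := Complex.exp ζ with hzdef
    simp only [(hder z hz).1, (hder z hz).2]
    have e1 : ((deriv h z + deriv g z) * z).re * ((deriv h z - deriv g z) * z).re
        + ((deriv h z + deriv g z) * z).im * ((deriv h z - deriv g z) * z).im
        = (‖deriv h z‖ ^ 2 - ‖deriv g z‖ ^ 2) * ‖z‖ ^ 2 := by
      rw [← Complex.normSq_eq_norm_sq, ← Complex.normSq_eq_norm_sq, ← Complex.normSq_eq_norm_sq]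
      simp only [Complex.normSq_apply, Complex.mul_re, Complex.mul_im, Complex.add_re,
        Complex.add_im, Complex.sub_re, Complex.sub_im]
      ring
    rw [e1]
    have hsp := schwarz_pick hωd hω1 hz
    rw [← hc] at hsp
    have e2 : ‖ω z‖ ^ 2 * ‖deriv h z‖ ^ 2 = ‖deriv g z‖ ^ 2 := by
      rw [← mul_pow, ← norm_mul]
      congr 2
      rw [hω]
      simp only
      exact div_mul_cancel₀ _ (hne z hz)
    have e3 : ‖(deriv h z + deriv g z) * z‖ ^ 2 ≤ 4 * ‖deriv h z‖ ^ 2 * ‖z‖ ^ 2 := by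
      rw [norm_mul, mul_pow]
      apply mul_le_mul_of_nonneg_right _ (by positivity)
      have h1 := norm_add_le (deriv h z) (deriv g z)
      have h2 := (hJ z hz).le
      have h3 : ‖deriv h z + deriv g z‖ ≤ 2 * ‖deriv h z‖ := by linarith
      calc ‖deriv h z + deriv g z‖ ^ 2 ≤ (2 * ‖deriv h z‖) ^ 2 :=
            pow_le_pow_left₀ (norm_nonneg _) h3 2
        _ = _ := by ring
    -- |re| ≤ 2 (1 - |z|)
    have hx0 : -1 < ζ.re := hζ.1.1
    have hx1 : ζ.re < 0 := hζL
    have e4 : |ζ.re| ≤ 2 * (1 - ‖z‖) := by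
      rw [abs_of_neg hx1, hzdef, Complex.norm_exp]
      have h1 : Real.exp ζ.re ≤ 1 / (1 - ζ.re) := by
        have h2 := Real.add_one_le_exp (-ζ.re)
        rw [Real.exp_neg] at h2
        have h3 : 0 < 1 - ζ.re := by linarith
        have h4 := Real.exp_pos ζ.re
        rw [le_div_iff₀ h3]
        have h5 : (-ζ.re + 1) * Real.exp ζ.re ≤ (Real.exp ζ.re)⁻¹ * Real.exp ζ.re :=
          mul_le_mul_of_nonneg_right h2 h4.le
        rw [inv_mul_cancel₀ h4.ne'] at h5
        linarith
      have h3 : 0 < 1 - ζ.re := by linarith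
      have h4 : 1 / (1 - ζ.re) ≤ 1 + ζ.re / 2 := by
        rw [div_le_iff₀ h3]
        nlinarith
      linarith
    have hnz : ‖z‖ < 1 := by simpa using hz
    calc |ζ.re| * ‖(deriv h z + deriv g z) * z‖ ^ 2
        ≤ (2 * (1 - ‖z‖)) * (4 * ‖deriv h z‖ ^ 2 * ‖z‖ ^ 2) := by
          apply mul_le_mul e4 e3 (by positivity)
          linarith
      _ = 8 / c * ((c * (1 - ‖z‖)) * (‖deriv h z‖ ^ 2 * ‖z‖ ^ 2)) := by
          field_simp
          ring
      _ ≤ 8 / c * ((1 - ‖ω z‖ ^ 2) * (‖deriv h z‖ ^ 2 * ‖z‖ ^ 2)) := by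
          apply mul_le_mul_of_nonneg_left _ (by positivity)
          exact mul_le_mul_of_nonneg_right hsp (by positivity)
      _ = 8 / c * ((‖deriv h z‖ ^ 2 - ‖ω z‖ ^ 2 * ‖deriv h z‖ ^ 2) * ‖z‖ ^ 2) := by ring
      _ = _ := by rw [e2]
  · -- the hypothesis on `h - g`
    rw [hkp]
    obtain ⟨M, hM⟩ := hG
    have cG : ContinuousOn (fun z => h z - g z) (ball 0 1) := hG'.continuousOn
    refine ⟨2 ^ (q / 2) * (2 * Real.pi) + 2 ^ (q / 2) * M, fun x _ hx => ?_⟩
    have hpt : ∀ y : ℝ, 0 ≤ y → (1 + y ^ 2) ^ (q / 2) ≤ 2 ^ (q / 2) * (1 + y ^ q) := by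
      intro y hy
      have e1 : y ^ q = (y ^ 2) ^ (q / 2) := by
        rw [← Real.rpow_natCast, ← Real.rpow_mul hy]
        congr 1
        push_cast
        ring
      have e2 : 0 ≤ (2 : ℝ) ^ (q / 2) := by positivity
      have e3 : 0 ≤ y ^ q := by positivity
      rcases le_total (y ^ 2) 1 with h1 | h1
      · calc (1 + y ^ 2) ^ (q / 2) ≤ 2 ^ (q / 2) :=
              Real.rpow_le_rpow (by positivity) (by linarith) (by positivity)
          _ ≤ _ := by nlinarith
      · calc (1 + y ^ 2) ^ (q / 2) ≤ (2 * y ^ 2) ^ (q / 2) :=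
              Real.rpow_le_rpow (by positivity) (by linarith) (by positivity)
          _ = 2 ^ (q / 2) * y ^ q := by
              rw [Real.mul_rpow (by norm_num) (by positivity), e1]
          _ ≤ _ := by nlinarith
    have hr0 : 0 < Real.exp x := Real.exp_pos x
    have hr1 : Real.exp x < 1 := by
      rw [← Real.exp_zero]
      exact Real.exp_lt_exp.mpr hx
    have h1 := hM (Real.exp x) hr0.le hr1
    unfold mean
    have h2 : ∀ θ : ℝ, Complex.exp ((x : ℂ) + θ * Complex.I)
        = ((Real.exp x : ℝ) : ℂ) * Complex.exp ((θ : ℂ) * Complex.I) := by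
      intro θ
      rw [Complex.exp_add, ← Complex.ofReal_exp]
    simp only [h2]
    have c1 : ContinuousOn (fun z => (1 + ‖h z - g z‖ ^ 2) ^ (q / 2)) (ball 0 1) := by
      apply (continuousOn_const.add (cG.norm.pow 2)).rpow_const
      intro z _
      have h1 : 0 < 1 + ‖h z - g z‖ ^ 2 := by positivity
      exact Or.inl h1.ne'
    have c2 : ContinuousOn (fun z => ‖h z - g z‖ ^ q) (ball 0 1) :=
      cG.norm.rpow_const fun z _ => Or.inr hq0.le
    have c3 : ContinuousOn (fun z => 2 ^ (q / 2) * (1 + ‖h z - g z‖ ^ q)) (ball 0 1) :=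
      continuousOn_const.mul (continuousOn_const.add c2)
    refine (means_mono c1 c3 (fun z _ => hpt _ (norm_nonneg _)) hr0.le hr1).trans ?_
    rw [intervalIntegral.integral_const_mul, intervalIntegral.integral_add
      (intervalIntegrable_const) ((continuous_circle c2 hr0.le hr1).intervalIntegrable _ _),
      intervalIntegral.integral_const, smul_eq_mul, sub_zero, mul_one, mul_add]
    have e2 : 0 ≤ (2 : ℝ) ^ (q / 2) := by positivity
    linarith [mul_le_mul_of_nonneg_left h1 e2]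
  · -- conclusion
    obtain ⟨M, hM⟩ := key
    have cF : ContinuousOn (fun z => h z + g z) (ball 0 1) := hF.continuousOn
    have cG : ContinuousOn (fun z => h z - g z) (ball 0 1) := hG'.continuousOn
    set T : ℂ → ℝ := fun z => (1 + ‖h z + g z‖ ^ 2 + (1 + ‖h z - g z‖ ^ 2) ^ k) ^ (p / 2) with hT
    have cT : ContinuousOn T (ball 0 1) := by
      apply ContinuousOn.rpow_const
      · apply (continuousOn_const.add (cF.norm.pow 2)).add
        apply (continuousOn_const.add (cG.norm.pow 2)).rpow_const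
        intro z _
        have h1 : 0 < 1 + ‖h z - g z‖ ^ 2 := by positivity
        exact Or.inl h1.ne'
      · intro z _
        have h1 : 0 < 1 + ‖h z + g z‖ ^ 2 + (1 + ‖h z - g z‖ ^ 2) ^ k := by positivity
        exact Or.inl h1.ne'
    have hTb : ∃ M : ℝ, ∀ r : ℝ, 0 ≤ r → r < 1 →
        ∫ θ in (0 : ℝ)..(2 * Real.pi), T ((r : ℂ) * Complex.exp ((θ : ℂ) * Complex.I)) ≤ M := by
      have hr0 : Real.exp (-1) < 1 := by
        rw [← Real.exp_zero]
        exact Real.exp_lt_exp.mpr (by norm_num)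
      apply memH_of_near cT hr0
      refine ⟨M, fun r hr hr1 => ?_⟩
      have hr0 : 0 < r := lt_of_lt_of_le (Real.exp_pos _) hr
      have h1 : (-1 : ℝ) ≤ Real.log r := (Real.le_log_iff_exp_le hr0).mpr hr
      have h2 : Real.log r < 0 := Real.log_neg hr0 hr1
      have h3 := hM (Real.log r) h1 h2
      unfold mean at h3
      simp only [exp_log_coord hr0] at h3
      exact h3
    obtain ⟨M', hM'⟩ := hTb
    have hle : ∀ w : ℂ, ∀ z ∈ ball (0 : ℂ) 1,
        ‖w‖ ≤ (‖h z + g z‖ + ‖h z - g z‖) / 2 → ‖w‖ ^ p ≤ T z := by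
      intro w z _ hw
      have e1 : ‖w‖ ^ p = (‖w‖ ^ 2) ^ (p / 2) := by
        rw [← Real.rpow_natCast, ← Real.rpow_mul (norm_nonneg _)]
        congr 1
        push_cast
        ring
      rw [e1, hT]
      apply Real.rpow_le_rpow (by positivity) _ (by positivity)
      have e2 : 1 + ‖h z - g z‖ ^ 2 ≤ (1 + ‖h z - g z‖ ^ 2) ^ k := by
        have e3 : (1 : ℝ) ≤ 1 + ‖h z - g z‖ ^ 2 := by nlinarith [norm_nonneg (h z - g z)]
        calc 1 + ‖h z - g z‖ ^ 2 = (1 + ‖h z - g z‖ ^ 2) ^ (1 : ℝ) := (Real.rpow_one _).symm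
          _ ≤ _ := Real.rpow_le_rpow_of_exponent_le e3 hk0
      have e4 := norm_nonneg (h z + g z)
      have e5 := norm_nonneg (h z - g z)
      have e6 : ‖w‖ ^ 2 ≤ ((‖h z + g z‖ + ‖h z - g z‖) / 2) ^ 2 :=
        pow_le_pow_left₀ (norm_nonneg _) hw 2
      nlinarith [sq_nonneg (‖h z + g z‖ - ‖h z - g z‖)]
    have fin : ∀ Q : ℂ → ℂ, ContinuousOn Q (ball 0 1) →
        (∀ z ∈ ball (0 : ℂ) 1, ‖Q z‖ ≤ (‖h z + g z‖ + ‖h z - g z‖) / 2) → MemH p Q := by
      intro Q hQ hQ1
      refine ⟨M', fun r hr hr1 => ?_⟩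
      refine le_trans ?_ (hM' r hr hr1)
      exact means_mono (P := fun z => ‖Q z‖ ^ p) (hQ.norm.rpow_const fun z _ => Or.inr hp.le) cT
        (fun z hz => hle _ z hz (hQ1 z hz)) hr hr1
    constructor
    · apply fin h hh.continuousOn
      intro z _
      have e1 : h z = ((h z + g z) + (h z - g z)) / 2 := by ring
      have e2 := norm_add_le (h z + g z) (h z - g z)
      calc ‖h z‖ = ‖((h z + g z) + (h z - g z)) / 2‖ := by rw [← e1]
        _ = ‖(h z + g z) + (h z - g z)‖ / 2 := by rw [norm_div]; norm_num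
        _ ≤ _ := by linarith
    · apply fin g hg.continuousOn
      intro z _
      have e1 : g z = ((h z + g z) - (h z - g z)) / 2 := by ring
      have e2 := norm_sub_le (h z + g z) (h z - g z)
      calc ‖g z‖ = ‖((h z + g z) - (h z - g z)) / 2‖ := by rw [← e1]
        _ = ‖(h z + g z) - (h z - g z)‖ / 2 := by rw [norm_div]; norm_num
        _ ≤ _ := by linarith

theorem memH_congr {p : ℝ} {F G : ℂ → ℂ} (hFG : ∀ z, ‖F z‖ = ‖G z‖) (hF : MemH p F) :
    MemH p G := by
  obtain ⟨M, hM⟩ := hF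
  refine ⟨M, fun r hr hr1 => ?_⟩
  have h1 := hM r hr hr1
  simp only [hFG] at h1
  exact h1

/-- the transfer principle -/
theorem transfer {h g : ℂ → ℂ} (hh : DifferentiableOn ℂ h (ball 0 1))
    (hg : DifferentiableOn ℂ g (ball 0 1))
    (hinj : InjOn (fun z => h z + (starRingEnd ℂ) (g z)) (ball 0 1))
    (hJ : ∀ z ∈ ball (0 : ℂ) 1, ‖deriv g z‖ < ‖deriv h z‖)
    {p q : ℝ} (hp : 0 < p) (hp1 : p < 1) (hq : p / (1 - p) < q) {η : ℂ} (hη : ‖η‖ = 1)
    (hG : MemH q (fun z => h z + η * g z)) : MemH p h ∧ MemH p g := by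
  obtain ⟨c, hc⟩ := IsAlgClosed.exists_pow_nat_eq (-(starRingEnd ℂ) η) (n := 2) (by norm_num)
  have hcn : ‖c‖ = 1 := by
    have h1 : ‖c‖ ^ 2 = 1 := by
      rw [← norm_pow, hc, norm_neg, RCLike.norm_conj, hη]
    nlinarith [norm_nonneg c]
  have hc1 : c * (starRingEnd ℂ) c = 1 := by
    rw [Complex.mul_conj, Complex.normSq_eq_norm_sq, hcn]
    norm_num
  have hη2 : η = -((starRingEnd ℂ) c) ^ 2 := by
    have h1 := congrArg (starRingEnd ℂ) hc
    rw [map_pow, map_neg, Complex.conj_conj] at h1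
    rw [h1, neg_neg]
  have hder : ∀ (a : ℂ) (Q : ℂ → ℂ) (z : ℂ), ‖a‖ = 1 → ‖deriv (fun z => a * Q z) z‖ = ‖deriv Q z‖ := by
    intro a Q z ha
    rw [deriv_const_mul_field, norm_mul, ha, one_mul]
  have hcc : ‖(starRingEnd ℂ) c‖ = 1 := by rw [RCLike.norm_conj, hcn]
  have key := transfer_sub (h := fun z => c * h z) (g := fun z => (starRingEnd ℂ) c * g z)
    (hh.const_mul c) (hg.const_mul _) ?_ ?_ hp hp1 hq ?_
  · refine ⟨memH_congr (fun z => ?_) key.1, memH_congr (fun z => ?_) key.2⟩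
    · rw [norm_mul, hcn, one_mul]
    · rw [norm_mul, hcc, one_mul]
  · intro z hz w hw he
    simp only [map_mul, Complex.conj_conj] at he
    apply hinj hz hw
    have h1 : c * (h z + (starRingEnd ℂ) (g z)) = c * (h w + (starRingEnd ℂ) (g w)) := by
      rw [mul_add, mul_add]
      exact he
    have hc0 : c ≠ 0 := by
      intro h0
      rw [h0, norm_zero] at hcn
      norm_num at hcn
    exact mul_left_cancel₀ hc0 h1
  · intro z hz
    rw [hder _ _ _ hcn, hder _ _ _ hcc]
    exact hJ z hz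
  · refine memH_congr (fun z => ?_) hG
    have h1 : c * h z - (starRingEnd ℂ) c * g z = c * (h z + η * g z) := by
      rw [hη2]
      linear_combination ((starRingEnd ℂ) c * g z) * hc1
    show ‖h z + η * g z‖ = ‖c * h z - (starRingEnd ℂ) c * g z‖
    rw [h1, norm_mul, hcn, one_mul]

end Pool.Agent.MP7da5c3
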