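import Pool.Agent.MP7da5c3.Area
import Pool.Agent.MP7da5c3.Lap

set_option autoImplicit false

namespace Pool.Agent.MP7da5c3

open Set Filter Topology MeasureTheory

theorem mapf_re (F G : ℂ → ℂ) (ζ : ℂ) : (mapf F G ζ).re = (F ζ).re := by
  simp [mapf]

theorem mapf_im (F G : ℂ → ℂ) (ζ : ℂ) : (mapf F G ζ).im = (G ζ).im := by
  simp [mapf]

theorem sq_re_le (z : ℂ) : z.re ^ 2 ≤ ‖z‖ ^ 2 := by
  rw [← Complex.normSq_eq_norm_sq, Complex.normSq_apply]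
  nlinarith [sq_nonneg z.im]

theorem sq_im_le (z : ℂ) : z.im ^ 2 ≤ ‖z‖ ^ 2 := by
  rw [← Complex.normSq_eq_norm_sq, Complex.normSq_apply]
  nlinarith [sq_nonneg z.re]

theorem mean_mul_re (b : ℂ → ℝ) (t : ℝ) : mean (fun ζ => |ζ.re| * b ζ) t = |t| * mean b t := by
  unfold mean
  rw [← intervalIntegral.integral_const_mul]
  apply intervalIntegral.integral_congr
  intro θ _
  have h : ((t : ℂ) + θ * Complex.I).re = t := by simp
  simp only [h]

/-- the transfer principle in logarithmic coordinates -/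
theorem transfer_log {F F1 F2 G G1 G2 : ℂ → ℂ} (hF : Data F F1 F2) (hG : Data G G1 G2)
    {C x0 : ℝ} (hx0 : x0 < 0) (hC : 0 ≤ C) (hinj : InjOn (mapf F G) (Rect x0))
    (hJ : ∀ ζ ∈ Rect x0, |ζ.re| * ‖F1 ζ‖ ^ 2 ≤
      C * ((F1 ζ).re * (G1 ζ).re + (F1 ζ).im * (G1 ζ).im))
    {k p : ℝ} (hk : 1 ≤ k) (hp : 0 < p) (hp1 : p < 1) (hk1 : 1 < k * (1 - p))
    (hM : ∃ M, ∀ x, x0 ≤ x → x < 0 → mean (fun ζ => (1 + ‖G ζ‖ ^ 2) ^ (k * p / 2)) x ≤ M) :
    ∃ M, ∀ x, x0 ≤ x → x < 0 →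
      mean (fun ζ => (1 + ‖F ζ‖ ^ 2 + (1 + ‖G ζ‖ ^ 2) ^ k) ^ (p / 2)) x ≤ M := by
  obtain ⟨M, hM⟩ := hM
  obtain ⟨T1, T2, U1, U2, dT, dU, perT, perU, hlap⟩ :=
    exists_T hF hG hk hp (by linarith)
  set T : ℂ → ℝ := fun ζ => (1 + ‖F ζ‖ ^ 2 + (1 + ‖G ζ‖ ^ 2) ^ k) ^ (p / 2) with hT
  set U : ℂ → ℝ := fun ζ => (1 + ‖G ζ‖ ^ 2) ^ (k * p / 2) with hU
  set b : ℂ → ℝ := fun ζ =>
    2 * p * (1 + ‖F ζ‖ ^ 2 + (1 + ‖G ζ‖ ^ 2) ^ k) ^ (p / 2 - 1) * ‖F1 ζ‖ ^ 2 with hb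
  have cF : ContinuousOn F LH := fun ζ hζ => (hF.h1 ζ hζ).continuousAt.continuousWithinAt
  have cF1 : ContinuousOn F1 LH := fun ζ hζ => (hF.h2 ζ hζ).continuousAt.continuousWithinAt
  have cG : ContinuousOn G LH := fun ζ hζ => (hG.h1 ζ hζ).continuousAt.continuousWithinAt
  have posS : ∀ ζ, 0 < 1 + ‖F ζ‖ ^ 2 + (1 + ‖G ζ‖ ^ 2) ^ k := fun ζ => by positivity
  have cS : ContinuousOn (fun ζ => 1 + ‖F ζ‖ ^ 2 + (1 + ‖G ζ‖ ^ 2) ^ k) LH := by
    apply (continuousOn_const.add (cF.norm.pow 2)).add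
    apply (continuousOn_const.add (cG.norm.pow 2)).rpow_const
    intro ζ _
    have h4 : 0 < 1 + ‖G ζ‖ ^ 2 := by positivity
    exact Or.inl h4.ne'
  have cb : ContinuousOn b LH := by
    apply (continuousOn_const.mul _).mul (cF1.norm.pow 2)
    exact cS.rpow_const fun ζ _ => Or.inl (posS ζ).ne'
  have hb0 : ∀ ζ, 0 ≤ b ζ := by
    intro ζ
    exact mul_nonneg (mul_nonneg (by positivity) (Real.rpow_pos_of_pos (posS ζ) (p / 2 - 1)).le)
      (by positivity)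
  -- the area integral
  set Θ : ℂ → ENNReal := fun w =>
    ENNReal.ofReal ((1 + w.re ^ 2 + (1 + w.im ^ 2) ^ k) ^ (p / 2 - 1)) with hΘ
  have hfin : ∫⁻ w, Θ w < ⊤ := majorant_finite hp hp1 hk1
  have harea := area_le (measurableSet_Rect x0) (fun ζ hζ => hF.h1 ζ (Rect_subset x0 hζ))
    (fun ζ hζ => hG.h1 ζ (Rect_subset x0 hζ)) hinj Θ
  set K : ℝ := 2 * p * C * (∫⁻ w, Θ w).toReal with hKdef
  have hK0 : 0 ≤ K := by positivity
  have hint : ∫⁻ ζ in Rect x0, ENNReal.ofReal (|ζ.re| * b ζ) ≤ ENNReal.ofReal K := by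
    have h1 : ∫⁻ ζ in Rect x0, ENNReal.ofReal (|ζ.re| * b ζ) ≤
        ∫⁻ ζ in Rect x0, ENNReal.ofReal (2 * p * C) *
          (ENNReal.ofReal |(F1 ζ).re * (G1 ζ).re + (F1 ζ).im * (G1 ζ).im| * Θ (mapf F G ζ)) := by
      apply setLIntegral_mono' (measurableSet_Rect x0)
      intro ζ hζ
      have hJζ := hJ ζ hζ
      set J := (F1 ζ).re * (G1 ζ).re + (F1 ζ).im * (G1 ζ).im with hJdef
      rw [hΘ, ← ENNReal.ofReal_mul (abs_nonneg _), ← ENNReal.ofReal_mul (by positivity)]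
      apply ENNReal.ofReal_le_ofReal
      rw [mapf_re, mapf_im, hb]
      have e1 : (1 + ‖F ζ‖ ^ 2 + (1 + ‖G ζ‖ ^ 2) ^ k) ^ (p / 2 - 1) ≤
          (1 + (F ζ).re ^ 2 + (1 + (G ζ).im ^ 2) ^ k) ^ (p / 2 - 1) := by
        apply Real.rpow_le_rpow_of_nonpos (by positivity) _ (by linarith)
        have h2 := sq_re_le (F ζ)
        have h3 : (1 + (G ζ).im ^ 2) ^ k ≤ (1 + ‖G ζ‖ ^ 2) ^ k := by
          apply Real.rpow_le_rpow (by positivity) _ (by linarith)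
          linarith [sq_im_le (G ζ)]
        linarith
      have e2 : 0 ≤ (1 + ‖F ζ‖ ^ 2 + (1 + ‖G ζ‖ ^ 2) ^ k) ^ (p / 2 - 1) :=
        (Real.rpow_pos_of_pos (posS ζ) _).le
      have e3 : |ζ.re| * ‖F1 ζ‖ ^ 2 ≤ C * |J| :=
        hJζ.trans (mul_le_mul_of_nonneg_left (le_abs_self _) hC)
      calc |ζ.re| * (2 * p * (1 + ‖F ζ‖ ^ 2 + (1 + ‖G ζ‖ ^ 2) ^ k) ^ (p / 2 - 1) * ‖F1 ζ‖ ^ 2)
          = 2 * p * ((1 + ‖F ζ‖ ^ 2 + (1 + ‖G ζ‖ ^ 2) ^ k) ^ (p / 2 - 1) *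
            (|ζ.re| * ‖F1 ζ‖ ^ 2)) := by ring
        _ ≤ 2 * p * ((1 + (F ζ).re ^ 2 + (1 + (G ζ).im ^ 2) ^ k) ^ (p / 2 - 1) * (C * |J|)) := by
            gcongr
        _ = 2 * p * C * (|J| * (1 + (F ζ).re ^ 2 + (1 + (G ζ).im ^ 2) ^ k) ^ (p / 2 - 1)) := by
            ring
    have hK' : ENNReal.ofReal K = ENNReal.ofReal (2 * p * C) * ∫⁻ w, Θ w := by
      rw [hKdef, ENNReal.ofReal_mul (by positivity), ENNReal.ofReal_toReal hfin.ne]
    refine h1.trans ?_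
    rw [lintegral_const_mul' _ _ ENNReal.ofReal_ne_top, hK']
    gcongr
  have hKint : ∀ x, x0 ≤ x → x < 0 → ∫ t in x0..x, |t| * mean b t ≤ K := by
    intro x hx hx'
    have h1 := iterated_le (g := fun ζ => |ζ.re| * b ζ)
      ((continuous_abs.comp Complex.continuous_re).continuousOn.mul cb)
      (fun ζ _ => mul_nonneg (abs_nonneg _) (hb0 ζ)) hx hx' hK0 hint
    simp only [mean_mul_re] at h1
    exact h1
  -- second order inequality
  have hint' : ∀ (P : ℂ → ℝ), ContinuousOn P LH → ∀ x : ℝ, x < 0 → IntervalIntegrable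
      (fun θ : ℝ => P (x + θ * Complex.I)) volume 0 (2 * Real.pi) :=
    fun P hP x hx => (continuous_slice hP hx).intervalIntegrable _ _
  have hN := fun (x : ℝ) (hx : x0 ≤ x) (hx' : x < 0) => second_order
    (N := fun x => mean T x - (2 / p + k) * mean U x)
    (N1 := fun x => mean (T1 1) x - (2 / p + k) * mean (U1 1) x)
    (N2 := fun x => mean (fun ζ => T2 1 ζ + T2 Complex.I ζ) x
      - (2 / p + k) * mean (fun ζ => U2 1 ζ + U2 Complex.I ζ) x)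
    (a := mean b) (x0 := x0) (K := K) hx0
    (fun x hx => ((dT.mean perT hx).1).sub (((dU.mean perU hx).1).const_mul _))
    (fun x hx => ((dT.mean perT hx).2).sub (((dU.mean perU hx).2).const_mul _))
    (continuousOn_mean cb)
    (fun x _ => intervalIntegral.integral_nonneg (by positivity) fun θ _ => hb0 _)
    (fun x hx => by
      have cT2 : ContinuousOn (fun ζ => T2 1 ζ + T2 Complex.I ζ) LH :=
        (dT.c2 1).add (dT.c2 Complex.I)
      have cU2 : ContinuousOn (fun ζ => U2 1 ζ + U2 Complex.I ζ) LH :=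
        (dU.c2 1).add (dU.c2 Complex.I)
      have h1 : mean (fun ζ => T2 1 ζ + T2 Complex.I ζ) x ≤
          mean (fun ζ => b ζ + (2 / p + k) * (U2 1 ζ + U2 Complex.I ζ)) x := by
        apply intervalIntegral.integral_mono_on (by positivity) (hint' _ cT2 x hx)
        · exact hint' _ (cb.add (continuousOn_const.mul cU2)) x hx
        · intro θ _
          exact hlap _ (mem_LH hx)
      have h2 : mean (fun ζ => b ζ + (2 / p + k) * (U2 1 ζ + U2 Complex.I ζ)) x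
          = mean b x + (2 / p + k) * mean (fun ζ => U2 1 ζ + U2 Complex.I ζ) x := by
        unfold mean
        rw [intervalIntegral.integral_add (hint' _ cb x hx)
          ((hint' _ cU2 x hx).const_mul _), intervalIntegral.integral_const_mul]
      linarith)
    hKint hx hx'
  refine ⟨mean T x0 - (2 / p + k) * mean U x0 + |mean (T1 1) x0 - (2 / p + k) * mean (U1 1) x0| * |x0| + K
    + (2 / p + k) * M, ?_⟩
  intro x hx hx'
  have h1 := hN x hx hx'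
  have h2 := hM x hx hx'
  have h3 : (2 / p + k) * mean U x ≤ (2 / p + k) * M := mul_le_mul_of_nonneg_left h2 (by positivity)
  linarith

end Pool.Agent.MP7da5c3
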